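import Pool.Agent.Y320.ST.Stm4

/-!
Project ST: chains on the sphere which avoid a point.
-/

set_option autoImplicit false

open Filter Topology
open scoped RealInnerProductSpace

namespace Pool.Agent.Y391.ST

open Pool.Agent.Y320.CM Pool.Agent.Y320.ST

/-- Euclidean space -/
abbrev W : Type := EuclideanSpace ℝ (Fin 3)

theorem nsph (p : Sph) : ‖(p : W)‖ = 1 := norm_eq_of_mem_sphere p

theorem dsq (p r : Sph) : dist p r ^ 2 = 2 - 2 * ⟪(p : W), (r : W)⟫ := by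
  rw [Subtype.dist_eq, dist_eq_norm, norm_sub_sq_real, nsph, nsph]
  ring

/-- the segment from `p` to `-r` -/
noncomputable def seg (p r : W) (t : ℝ) : W := (1 - t) • p - t • r

theorem seg_sq (p r : Sph) (t : ℝ) :
    ‖seg p r t‖ ^ 2 = (1 - 2 * t) ^ 2 + t * (1 - t) * dist p r ^ 2 := by
  rw [seg, norm_sub_sq_real, norm_smul, norm_smul, nsph, nsph, real_inner_smul_left,
    real_inner_smul_right, dsq]
  simp only [Real.norm_eq_abs, mul_one, sq_abs]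
  ring

theorem le_seg (p r : Sph) {t : ℝ} : dist p r / 2 ≤ ‖seg p r t‖ := by
  have h1 := seg_sq p r t
  have h2 : dist p r ≤ 2 := dist_le_two p r
  have h3 : 0 ≤ dist p r := dist_nonneg
  have h4 : dist p r ^ 2 ≤ 4 := by nlinarith
  refine abs_le_of_sq_le_sq' ?_ (norm_nonneg _) |>.2
  rw [h1]
  nlinarith [mul_nonneg (sq_nonneg (1 - 2 * t)) (sub_nonneg.2 h4)]

theorem seg_le (p r : Sph) {t : ℝ} (h0 : 0 ≤ t) (h1 : t ≤ 1) : ‖seg p r t‖ ≤ 1 := by
  have h2 : ‖seg p r t‖ ≤ ‖(1 - t) • (p : W)‖ + ‖t • (r : W)‖ := norm_sub_le _ _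
  rw [norm_smul, norm_smul, nsph, nsph, Real.norm_eq_abs, Real.norm_eq_abs, abs_of_nonneg h0,
    abs_of_nonneg (sub_nonneg.2 h1)] at h2
  linarith

theorem seg_inner (p r : Sph) {t : ℝ} (h0 : 0 ≤ t) (h1 : t ≤ 1) :
    ⟪seg p r t, (r : W)⟫ ≤ ⟪(p : W), (r : W)⟫ * ‖seg p r t‖ := by
  set a := ⟪(p : W), (r : W)⟫ with ha
  have hrr : ⟪(r : W), (r : W)⟫ = 1 := by rw [real_inner_self_eq_norm_sq, nsph]; norm_num
  have hpp : ⟪(p : W), (p : W)⟫ = 1 := by rw [real_inner_self_eq_norm_sq, nsph]; norm_num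
  have h2 : ⟪seg p r t, (r : W)⟫ = (1 - t) * a - t := by
    rw [seg, inner_sub_left, real_inner_smul_left, real_inner_smul_left, hrr, ← ha, mul_one]
  have h3 : ⟪seg p r t, (p : W)⟫ = (1 - t) - t * a := by
    rw [seg, inner_sub_left, real_inner_smul_left, real_inner_smul_left, hpp, ha,
      real_inner_comm (r : W) (p : W), mul_one]
  have h4 : (1 - t) - t * a ≤ ‖seg p r t‖ := by
    rw [← h3]
    have := real_inner_le_norm (seg p r t) (p : W)
    rwa [nsph, mul_one] at this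
  have ha1 : |a| ≤ 1 := by
    have := abs_real_inner_le_norm (p : W) (r : W)
    rwa [nsph, nsph, mul_one] at this
  have ha2 := abs_le.1 ha1
  rw [h2]
  by_cases h5 : 0 ≤ a
  · have h6 : a * ((1 - t) - t * a) ≤ a * ‖seg p r t‖ := mul_le_mul_of_nonneg_left h4 h5
    nlinarith [mul_nonneg h0 (sub_nonneg.2 (by nlinarith : a ^ 2 ≤ 1))]
  · push Not at h5
    have h6 : -a * ‖seg p r t‖ ≤ -a * 1 :=
      mul_le_mul_of_nonneg_left (seg_le p r h0 h1) (by linarith)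
    nlinarith [mul_nonneg h0 (by linarith [ha2.1] : 0 ≤ 1 + a)]

/-- the normalised vector -/
noncomputable def nrm (u : W) (h : 0 < ‖u‖) : Sph :=
  ⟨(‖u‖)⁻¹ • u, by
    rw [mem_sphere_iff_norm, sub_zero, norm_smul, norm_inv, norm_norm, inv_mul_cancel₀ h.ne']⟩

theorem nrm_dist (u v : W) (hu : 0 < ‖u‖) (hv : 0 < ‖v‖) :
    dist (nrm u hu) (nrm v hv) ≤ 2 * ‖u - v‖ / ‖u‖ := by
  rw [Subtype.dist_eq, dist_eq_norm]
  change ‖(‖u‖)⁻¹ • u - (‖v‖)⁻¹ • v‖ ≤ _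
  have h1 : (‖u‖)⁻¹ • u - (‖v‖)⁻¹ • v = (‖u‖)⁻¹ • (u - v) + ((‖u‖)⁻¹ - (‖v‖)⁻¹) • v := by
    rw [smul_sub, sub_smul]
    abel
  rw [h1]
  refine (norm_add_le _ _).trans ?_
  rw [norm_smul, norm_smul, norm_inv, norm_norm]
  have h2 : ‖(‖u‖)⁻¹ - (‖v‖)⁻¹‖ * ‖v‖ = |‖v‖ - ‖u‖| / ‖u‖ := by
    rw [inv_sub_inv hu.ne' hv.ne', Real.norm_eq_abs, abs_div, abs_mul, abs_of_pos hu,
      abs_of_pos hv]
    field_simp
  rw [h2]
  have h3 : |‖v‖ - ‖u‖| ≤ ‖u - v‖ := by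
    rw [norm_sub_rev]
    exact abs_norm_sub_norm_le v u
  have h4 : |‖v‖ - ‖u‖| / ‖u‖ ≤ ‖u - v‖ / ‖u‖ := by gcongr
  have h5 : (‖u‖)⁻¹ * ‖u - v‖ = ‖u - v‖ / ‖u‖ := by rw [div_eq_inv_mul]
  rw [h5]
  have h6 : 2 * ‖u - v‖ / ‖u‖ = ‖u - v‖ / ‖u‖ + ‖u - v‖ / ‖u‖ := by ring
  rw [h6]
  linarith

theorem nrm_far (p r : Sph) {t : ℝ} (h0 : 0 ≤ t) (h1 : t ≤ 1) (h : 0 < ‖seg p r t‖) :
    dist p r ≤ dist (nrm (seg p r t) h) r := by
  refine abs_le_of_sq_le_sq' ?_ dist_nonneg |>.2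
  rw [dsq, dsq]
  have h2 : ⟪((nrm (seg p r t) h : Sph) : W), (r : W)⟫ =
      (‖seg p r t‖)⁻¹ * ⟪seg p r t, (r : W)⟫ := by
    change ⟪(‖seg p r t‖)⁻¹ • seg p r t, (r : W)⟫ = _
    rw [real_inner_smul_left]
  rw [h2]
  have h3 := mul_le_mul_of_nonneg_left (seg_inner p r h0 h1) (inv_nonneg.2 h.le)
  rw [mul_comm ⟪(p : W), (r : W)⟫, inv_mul_cancel_left₀ h.ne'] at h3
  linarith

/-- half of the chain -/
theorem half (η1 : ℝ) (h1 : 0 < η1) (η : ℝ) (hη : 0 < η) : ∃ s : ℕ, 0 < s ∧ ∀ r p : Sph,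
    η1 ≤ dist p r → ∃ x : ℕ → Sph, x 0 = p ∧ (x s : W) = -(r : W) ∧
      (∀ i, η1 ≤ dist (x i) r) ∧ ∀ i < s, dist (x i) (x (i + 1)) < η := by
  obtain ⟨s, hs⟩ := exists_nat_gt (8 / (η1 * η))
  have hpos : 0 < 8 / (η1 * η) := by positivity
  have hs0 : 0 < s := by
    have : (0 : ℝ) < s := hpos.trans hs
    exact_mod_cast this
  have hsR : (0 : ℝ) < s := by exact_mod_cast hs0
  refine ⟨s, hs0, fun r p hpr => ?_⟩
  have hn : ∀ t : ℝ, 0 < ‖seg p r t‖ := fun t =>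
    lt_of_lt_of_le (by linarith : 0 < dist p r / 2) (le_seg p r)
  have hT0 : ∀ i : ℕ, 0 ≤ min ((i : ℝ) / s) 1 := fun i => le_min (by positivity) zero_le_one
  have hT1 : ∀ i : ℕ, min ((i : ℝ) / s) 1 ≤ 1 := fun i => min_le_right _ _
  refine ⟨fun i => nrm (seg p r (min ((i : ℝ) / s) 1)) (hn _), ?_, ?_, ?_, ?_⟩
  · apply Subtype.ext
    change (‖seg p r (min (((0 : ℕ) : ℝ) / s) 1)‖)⁻¹ • seg p r (min (((0 : ℕ) : ℝ) / s) 1) = p
    have h2 : min (((0 : ℕ) : ℝ) / s) 1 = 0 := by simp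
    rw [h2]
    have h3 : seg p r 0 = p := by simp [seg]
    rw [h3, nsph, inv_one, one_smul]
  · change (‖seg p r (min ((s : ℝ) / s) 1)‖)⁻¹ • seg p r (min ((s : ℝ) / s) 1) = -r
    have h2 : min ((s : ℝ) / s) 1 = 1 := by rw [div_self hsR.ne', min_self]
    rw [h2]
    have h3 : seg p r 1 = -r := by simp [seg]
    rw [h3, norm_neg, nsph, inv_one, one_smul]
  · intro i
    exact hpr.trans (nrm_far p r (hT0 i) (hT1 i) (hn _))
  · intro i hi
    refine (nrm_dist _ _ (hn _) (hn _)).trans_lt ?_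
    have e1 : min ((i : ℝ) / s) 1 = (i : ℝ) / s := by
      apply min_eq_left
      rw [div_le_one hsR]
      exact_mod_cast hi.le
    have e2 : min (((i + 1 : ℕ) : ℝ) / s) 1 = ((i : ℝ) + 1) / s := by
      have : min (((i + 1 : ℕ) : ℝ) / s) 1 = ((i + 1 : ℕ) : ℝ) / s := by
        apply min_eq_left
        rw [div_le_one hsR]
        exact_mod_cast hi
      rw [this]
      push_cast
      rfl
    rw [e1, e2]
    have h3 : seg p r ((i : ℝ) / s) - seg p r (((i : ℝ) + 1) / s) =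
        (1 / (s : ℝ)) • ((p : W) + r) := by
      simp only [seg, smul_add, sub_smul, one_smul, add_div, add_smul]
      abel
    have h4 : ‖seg p r ((i : ℝ) / s) - seg p r (((i : ℝ) + 1) / s)‖ ≤ 2 / s := by
      rw [h3, norm_smul, Real.norm_eq_abs, abs_of_pos (by positivity)]
      have h5 : ‖(p : W) + r‖ ≤ 2 := by
        refine (norm_add_le _ _).trans ?_
        rw [nsph, nsph]
        norm_num
      calc 1 / (s : ℝ) * ‖(p : W) + r‖ ≤ 1 / (s : ℝ) * 2 := by gcongr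
        _ = 2 / s := by ring
    have h6 : η1 / 2 ≤ ‖seg p r ((i : ℝ) / s)‖ := le_trans (by linarith) (le_seg p r)
    calc 2 * ‖seg p r ((i : ℝ) / s) - seg p r (((i : ℝ) + 1) / s)‖ / ‖seg p r ((i : ℝ) / s)‖
        ≤ 2 * (2 / s) / (η1 / 2) := by gcongr
      _ = 8 / (η1 * s) := by field_simp; norm_num
      _ < η := by
        rw [div_lt_iff₀ (by positivity)]
        rw [div_lt_iff₀ (by positivity)] at hs
        nlinarith

/-- chains on the sphere which avoid a point -/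
theorem t_CHAIN : S_CHAIN := by
  intro η1 h1
  refine ⟨η1, h1, fun η hη => ?_⟩
  obtain ⟨s, hs0, hs⟩ := half η1 h1 η hη
  refine ⟨2 * s, fun r p q hp hq => ?_⟩
  obtain ⟨x, hx0, hxs, hxr, hxd⟩ := hs r p hp
  obtain ⟨y, hy0, hys, hyr, hyd⟩ := hs r q hq
  refine ⟨fun t => if t ≤ s then x t else y (2 * s - t), ?_, ?_, ?_, ?_⟩
  · simp [hx0]
  · have h2 : ¬ 2 * s ≤ s := by omega
    simp only [h2, if_false, Nat.sub_self, hy0]
  · intro t
    simp only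
    split_ifs
    · exact hxr t
    · exact hyr _
  · intro t ht
    simp only
    rcases lt_trichotomy t s with h2 | h2 | h2
    · rw [if_pos h2.le, if_pos (by omega : t + 1 ≤ s)]
      exact hxd t h2
    · subst h2
      rw [if_pos le_rfl, if_neg (by omega : ¬ t + 1 ≤ t)]
      have h3 : x t = y t := Subtype.ext (hxs.trans hys.symm)
      have h4 : 2 * t - (t + 1) = t - 1 := by omega
      have h5 := hyd (t - 1) (by omega)
      have h6 : t - 1 + 1 = t := by omega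
      rw [h6] at h5
      rw [h3, h4, dist_comm]
      exact h5
    · rw [if_neg (by omega : ¬ t ≤ s), if_neg (by omega : ¬ t + 1 ≤ s)]
      have h4 : 2 * s - t = (2 * s - (t + 1)) + 1 := by omega
      rw [h4, dist_comm]
      exact hyd _ (by omega)

end Pool.Agent.Y391.ST
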