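import Pool.Agent.Y391.ST.Flex

/-!
# Singular transitivity of the frames with flat regions
-/

set_option autoImplicit false

namespace Pool.Agent.Y391.ST

open Set MeasureTheory Filter Topology
open scoped ContDiff Manifold

noncomputable section

variable {r n : ℕ} (D : Flex r n)

lemma c01 : D.c0 ≠ D.c1 := fun h => D.hk01 (by rw [h])

/-- moves in the direction `y` over the flat region `x < 0` -/
lemma move_y (q : Fin n → ℝ) (hx : q D.c0 < 0) (v : ℝ) :
    ReachF D q (Function.update q D.c1 v) := by
  classical
  have h := reach_uu D q (D.ka D.c1) (v - q D.c1) D.z0 (Or.inr (by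
    set u0 := uu (D.ka D.c1) (v - q D.c1) with hu0
    have hc : ContinuousAt (xp D q D.c0) u0 := (differentiableAt_xp D q D.c0 u0).continuousAt
    have hu : xp D q D.c0 u0 = ContinuousMap.const _ (q D.c0) := by
      ext t
      show q D.c0 + P (u0 (D.ka D.c0)) t = q D.c0
      rw [hu0, uu_other _ D.hk01, P_zero _ t.2, add_zero]
    have hball := Metric.ball_mem_nhds (xp D q D.c0 u0) (neg_pos.2 hx)
    filter_upwards [hc hball] with w hw
    ext t
    show al D D.z0 (xp D q D.c0 w t) * _ = 0
    have h1 : dist (xp D q D.c0 w t) (xp D q D.c0 u0 t) < -q D.c0 :=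
      lt_of_le_of_lt (ContinuousMap.dist_apply_le_dist t) hw
    rw [hu, Real.dist_eq] at h1
    have h2 := (abs_lt.1 h1).2
    have h3 : (ContinuousMap.const I01 (q D.c0)) t = q D.c0 := rfl
    rw [h3] at h2
    rw [al_Z D D.hz0.1, T_zero (by linarith), zero_mul]))
  have e : EF D q (uu (D.ka D.c1) (v - q D.c1)) = Function.update q D.c1 v := by
    ext s
    rw [EF_y]
    by_cases hs : s = D.c1
    · subst hs
      rw [if_pos rfl, Function.update_self]
      ring
    · rw [if_neg hs, Function.update_of_ne hs, T_zero hx.le]
      split_ifs <;> ring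
  rw [e] at h
  exact h

/-- moves in the direction `y` over `x = 2`, in the interval `[2 j, 2 j + 1]` -/
lemma move_z (q : Fin n → ℝ) (hx : q D.c0 = 2) (z : Fin n) (hz : D.isZ z) (v : ℝ)
    (hq : q D.c1 ∈ Icc (2 * (D.idx z : ℝ)) (2 * D.idx z + 1))
    (hv : v ∈ Icc (2 * (D.idx z : ℝ)) (2 * D.idx z + 1)) :
    ReachF D q (Function.update (Function.update q D.c1 v) z
      (q z + (T (v - 2 * D.idx z) - T (q D.c1 - 2 * D.idx z)))) := by
  classical
  -- an index which does not feel the interval
  obtain ⟨s, hs, hflat⟩ : ∃ s, D.isZ s ∧ ∀ y : ℝ, 2 * (D.idx z : ℝ) - 1 / 4 < y →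
      y < 2 * D.idx z + 1 + 1 / 4 → ph (D.idx s) y = 0 := by
    rcases Nat.eq_zero_or_pos (D.idx z) with h0 | h0
    · refine ⟨D.z1, D.hz1.1, fun y h1 h2 => ?_⟩
      rw [D.hz1.2]
      apply ph_zero
      left
      rw [h0] at h2
      push_cast at h2 ⊢
      linarith
    · refine ⟨D.z0, D.hz0.1, fun y h1 h2 => ?_⟩
      rw [D.hz0.2]
      apply ph_zero
      right
      have : (1 : ℝ) ≤ D.idx z := by exact_mod_cast h0
      push_cast
      linarith
  have h := reach_uu D q (D.ka D.c1) (v - q D.c1) s (Or.inr (by
    set u0 := uu (D.ka D.c1) (v - q D.c1) with hu0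
    have hc : ContinuousAt (xp D q D.c1) u0 := (differentiableAt_xp D q D.c1 u0).continuousAt
    have hu : ∀ t : I01, xp D q D.c1 u0 t = q D.c1 + (v - q D.c1) * t := by
      intro t
      show q D.c1 + P (u0 (D.ka D.c1)) t = _
      rw [hu0, uu_same, P_cst _ t.2]
    have hball := Metric.ball_mem_nhds (xp D q D.c1 u0) (show (0 : ℝ) < 1 / 4 by norm_num)
    filter_upwards [hc hball] with w hw
    ext t
    show _ * be D s (xp D q D.c1 w t) = 0
    have h1 : dist (xp D q D.c1 w t) (xp D q D.c1 u0 t) < 1 / 4 :=
      lt_of_le_of_lt (ContinuousMap.dist_apply_le_dist t) hw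
    rw [hu, Real.dist_eq, abs_lt] at h1
    have ht0 : (0 : ℝ) ≤ t := t.2.1
    have ht1 : (t : ℝ) ≤ 1 := t.2.2
    have hlo : 2 * (D.idx z : ℝ) ≤ q D.c1 + (v - q D.c1) * t := by
      nlinarith [hq.1, hv.1]
    have hhi : q D.c1 + (v - q D.c1) * t ≤ 2 * D.idx z + 1 := by
      nlinarith [hq.2, hv.2]
    rw [be_Z D hs, hflat _ (by linarith [h1.1]) (by linarith [h1.2]), mul_zero]))
  have e : EF D q (uu (D.ka D.c1) (v - q D.c1)) =
      Function.update (Function.update q D.c1 v) z
        (q z + (T (v - 2 * D.idx z) - T (q D.c1 - 2 * D.idx z))) := by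
    ext l
    rw [EF_y, hx, T_one (by norm_num)]
    have hzc : z ≠ D.c1 := fun h => D.hc1 (h ▸ hz)
    by_cases hl : l = D.c1
    · subst hl
      rw [if_pos rfl, Function.update_of_ne hzc.symm, Function.update_self]
      ring
    · rw [if_neg hl]
      by_cases hlz : l = z
      · subst hlz
        rw [if_pos hz, Function.update_self]
        unfold Ph
        rw [show q D.c1 + (v - q D.c1) - 2 * (D.idx l : ℝ) = v - 2 * D.idx l by ring]
        ring
      · rw [Function.update_of_ne hlz, Function.update_of_ne hl]
        by_cases hlZ : D.isZ l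
        · rw [if_pos hlZ]
          have hne : D.idx l ≠ D.idx z := fun h => hlz (D.hinj l z hlZ hz h)
          have : Ph (D.idx l) (q D.c1 + (v - q D.c1)) = Ph (D.idx l) (q D.c1) := by
            unfold Ph
            rcases lt_or_gt_of_ne hne with h | h
            · have h' : (D.idx l : ℝ) + 1 ≤ D.idx z := by exact_mod_cast h
              rw [T_one (by linarith [hv.1]), T_one (by linarith [hq.1])]
            · have h' : (D.idx z : ℝ) + 1 ≤ D.idx l := by exact_mod_cast h
              rw [T_zero (by linarith [hv.2]), T_zero (by linarith [hq.2])]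
          rw [this]
          ring
        · rw [if_neg hlZ]
  rw [e] at h
  exact h

/-- change of `z_j` by `σ`, `0 ≤ σ ≤ 1`, in both directions -/
lemma loop_z (q : Fin n → ℝ) (z : Fin n) (hz : D.isZ z) (σ : ℝ) (hσ : 0 ≤ σ) (hσ1 : σ ≤ 1) :
    ReachF D q (Function.update q z (q z + σ)) ∧ ReachF D q (Function.update q z (q z - σ)) := by
  classical
  obtain ⟨τ, hτ, hTτ⟩ : ∃ τ ∈ Icc (0 : ℝ) 1, T τ = σ := by
    have h := intermediate_value_Icc (zero_le_one' ℝ) T_smooth.continuous.continuousOn
    have hmem : σ ∈ Icc (T 0) (T 1) := by
      rw [T_zero le_rfl, T_one le_rfl]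
      exact ⟨hσ, hσ1⟩
    obtain ⟨τ, h1, h2⟩ := h hmem
    exact ⟨τ, h1, h2⟩
  have hzc1 : z ≠ D.c1 := fun h => D.hc1 (h ▸ hz)
  have hzc0 : z ≠ D.c0 := fun h => D.hc0 (h ▸ hz)
  have hc01 := c01 D
  -- general loop: from height `a` to height `b` at `x = 2`
  have gen : ∀ a b : ℝ, a ∈ Icc (2 * (D.idx z : ℝ)) (2 * D.idx z + 1) →
      b ∈ Icc (2 * (D.idx z : ℝ)) (2 * D.idx z + 1) →
      ReachF D q (Function.update q z
        (q z + (T (b - 2 * D.idx z) - T (a - 2 * D.idx z)))) := by
    intro a b ha hb
    set w := q z + (T (b - 2 * D.idx z) - T (a - 2 * D.idx z)) with hw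
    have m1 := move_N D q D.c0 D.hc0 hc01 (-1)
    set q1 := Function.update q D.c0 (-1) with hq1
    have m2 := move_y D q1 (by rw [hq1, Function.update_self]; norm_num) a
    set q2 := Function.update q1 D.c1 a with hq2
    have m3 := move_N D q2 D.c0 D.hc0 hc01 2
    set q3 := Function.update q2 D.c0 2 with hq3
    have hq3c1 : q3 D.c1 = a := by
      rw [hq3, Function.update_of_ne hc01.symm, hq2, Function.update_self]
    have hq3z : q3 z = q z := by
      rw [hq3, Function.update_of_ne hzc0, hq2, Function.update_of_ne hzc1, hq1,
        Function.update_of_ne hzc0]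
    have m4 := move_z D q3 (by rw [hq3, Function.update_self]) z hz b
      (by rw [hq3c1]; exact ha) hb
    rw [hq3c1, hq3z, ← hw] at m4
    set q4 := Function.update (Function.update q3 D.c1 b) z w with hq4
    have m5 := move_N D q4 D.c0 D.hc0 hc01 (-1)
    set q5 := Function.update q4 D.c0 (-1) with hq5
    have m6 := move_y D q5 (by rw [hq5, Function.update_self]; norm_num) (q D.c1)
    set q6 := Function.update q5 D.c1 (q D.c1) with hq6
    have m7 := move_N D q6 D.c0 D.hc0 hc01 (q D.c0)
    have e : Function.update q6 D.c0 (q D.c0) = Function.update q z w := by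
      funext l
      by_cases h0 : l = D.c0
      · subst h0
        rw [Function.update_self, Function.update_of_ne hzc0.symm]
      · rw [Function.update_of_ne h0]
        by_cases h1 : l = D.c1
        · subst h1
          rw [hq6, Function.update_self, Function.update_of_ne hzc1.symm]
        · rw [hq6, Function.update_of_ne h1, hq5, Function.update_of_ne h0, hq4]
          by_cases h2 : l = z
          · subst h2
            rw [Function.update_self, Function.update_self]
          · rw [Function.update_of_ne h2, Function.update_of_ne h2, Function.update_of_ne h1,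
              hq3, Function.update_of_ne h0, hq2, Function.update_of_ne h1, hq1,
              Function.update_of_ne h0]
    rw [e] at m7
    exact (((((m1.trans m2).trans m3).trans m4).trans m5).trans m6).trans m7
  have ha : (2 * (D.idx z : ℝ)) ∈ Icc (2 * (D.idx z : ℝ)) (2 * D.idx z + 1) :=
    ⟨le_rfl, by linarith⟩
  have hb : (2 * (D.idx z : ℝ) + τ) ∈ Icc (2 * (D.idx z : ℝ)) (2 * D.idx z + 1) :=
    ⟨by linarith [hτ.1], by linarith [hτ.2]⟩
  constructor
  · have h := gen _ _ ha hb
    rw [add_sub_cancel_left, sub_self, hTτ, T_zero le_rfl, sub_zero] at h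
    exact h
  · have h := gen _ _ hb ha
    rw [add_sub_cancel_left, sub_self, hTτ, T_zero le_rfl, zero_sub, ← sub_eq_add_neg] at h
    exact h

lemma move_Z (q : Fin n → ℝ) (z : Fin n) (hz : D.isZ z) (v : ℝ) :
    ReachF D q (Function.update q z v) := by
  classical
  -- iterate small steps
  have iter : ∀ (σ : ℝ), |σ| ≤ 1 → ∀ k : ℕ,
      ReachF D q (Function.update q z (q z + k * σ)) := by
    intro σ hσ k
    induction k with
    | zero =>
      have : Function.update q z (q z + ((0 : ℕ) : ℝ) * σ) = q := by
        rw [Nat.cast_zero, zero_mul, add_zero, Function.update_eq_self]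
      rw [this]
      exact Relation.ReflTransGen.refl
    | succ k ih =>
      have h1 : ReachF D (Function.update q z (q z + k * σ))
          (Function.update q z (q z + (k + 1 : ℕ) * σ)) := by
        have h2 := loop_z D (Function.update q z (q z + k * σ)) z hz |σ| (abs_nonneg _) hσ
        rw [Function.update_self, Function.update_idem, Function.update_idem] at h2
        rcases abs_cases σ with ⟨h3, _⟩ | ⟨h3, _⟩
        · have h4 := h2.1
          rw [h3] at h4
          have e : q z + (k + 1 : ℕ) * σ = q z + k * σ + σ := by push_cast; ring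
          rw [e]
          exact h4
        · have h4 := h2.2
          rw [h3] at h4
          have e : q z + (k + 1 : ℕ) * σ = q z + k * σ - -σ := by push_cast; ring
          rw [e]
          exact h4
      exact ih.trans h1
  obtain ⟨k, hk⟩ := exists_nat_gt |v - q z|
  have hk0 : (0 : ℝ) < k := lt_of_le_of_lt (abs_nonneg _) hk
  have h := iter ((v - q z) / k) (by
    rw [abs_div, abs_of_pos hk0, div_le_one hk0]
    exact hk.le) k
  have e : q z + k * ((v - q z) / k) = v := by
    field_simp
    ring
  rw [e] at h
  exact h

/-- every coordinate can be changed -/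
lemma move_any (q : Fin n → ℝ) (l : Fin n) (v : ℝ) : ReachF D q (Function.update q l v) := by
  classical
  by_cases hz : D.isZ l
  · exact move_Z D q l hz v
  · by_cases h1 : l = D.c1
    · subst h1
      have hc01 := c01 D
      have m1 := move_N D q D.c0 D.hc0 hc01 (-1)
      set q1 := Function.update q D.c0 (-1) with hq1
      have m2 := move_y D q1 (by rw [hq1, Function.update_self]; norm_num) v
      set q2 := Function.update q1 D.c1 v with hq2
      have m3 := move_N D q2 D.c0 D.hc0 hc01 (q D.c0)
      have e : Function.update q2 D.c0 (q D.c0) = Function.update q D.c1 v := by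
        funext l
        by_cases h0 : l = D.c0
        · subst h0
          rw [Function.update_self, Function.update_of_ne hc01]
        · rw [Function.update_of_ne h0, hq2]
          by_cases h1 : l = D.c1
          · subst h1
            rw [Function.update_self, Function.update_self]
          · rw [Function.update_of_ne h1, Function.update_of_ne h1, hq1,
              Function.update_of_ne h0]
      rw [e] at m3
      exact (m1.trans m2).trans m3
    · exact move_N D q l hz h1 v

theorem singularTransitive_frF : SingularTransitive (frF D) := by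
  classical
  intro p q
  have h : ∀ S : Finset (Fin n), ReachF D p (fun s => if s ∈ S then q s else p s) := by
    intro S
    induction S using Finset.induction_on with
    | empty =>
      simp only [Finset.notMem_empty, if_false]
      exact Relation.ReflTransGen.refl
    | insert l S _ ih =>
      have h1 := move_any D (fun s => if s ∈ S then q s else p s) l (q l)
      have e : Function.update (fun s => if s ∈ S then q s else p s) l (q l) =
          fun s => if s ∈ insert l S then q s else p s := by
        funext s
        by_cases hs : s = l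
        · subst hs
          rw [Function.update_self, if_pos (Finset.mem_insert_self _ _)]
        · rw [Function.update_of_ne hs]
          by_cases hS : s ∈ S
          · rw [if_pos hS, if_pos (Finset.mem_insert_of_mem hS)]
          · rw [if_neg hS, if_neg (by
              rw [Finset.mem_insert]
              tauto)]
      rw [e] at h1
      exact ih.trans h1
  have h2 := h Finset.univ
  simp only [Finset.mem_univ, if_true] at h2
  exact h2

end

end Pool.Agent.Y391.ST
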