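import Pool.Agent.Y391.ST.Flex

/-!
# Infinite-dimensional symmetry groups of the frames with flat regions
-/

set_option autoImplicit false

namespace Pool.Agent.Y391.ST

open Set MeasureTheory Filter Topology
open scoped ContDiff Manifold

noncomputable section

variable {r n : ℕ} (D : Flex r n)

/-- `x ^ m T(-x)` -/
def chi (m : ℕ) (x : ℝ) : ℝ := x ^ m * T (-x)

lemma chi_smooth (m : ℕ) : ContDiff ℝ ∞ (chi m) :=
  (contDiff_id.pow m).mul (T_smooth.comp contDiff_neg)

lemma chi_zero (m : ℕ) {x : ℝ} (h : 0 < x) : chi m x = 0 := by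
  unfold chi
  rw [T_zero (by linarith), mul_zero]

lemma deriv_chi_zero (m : ℕ) {x : ℝ} (h : 0 < x) : deriv (chi m) x = 0 := by
  have : chi m =ᶠ[𝓝 x] fun _ => 0 := by
    filter_upwards [Ioi_mem_nhds h] with z hz
    exact chi_zero m hz
  rw [this.deriv_eq]
  simp

lemma chi_neg (m : ℕ) {x : ℝ} (h : x ≤ -1) : chi m x = x ^ m := by
  unfold chi
  rw [T_one (by linarith), mul_one]

/-- the shear `y ↦ y + t χ_m(x)` -/
def shF (m : ℕ) (t : ℝ) (q : Fin n → ℝ) : Fin n → ℝ := fun s =>
  q s + if s = D.c1 then t * chi m (q D.c0) else 0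

lemma shF_c0 (m : ℕ) (t : ℝ) (q : Fin n → ℝ) : shF D m t q D.c0 = q D.c0 := by
  unfold shF
  rw [if_neg (fun h => D.hk01 (by rw [h])), add_zero]

lemma shF_c1 (m : ℕ) (t : ℝ) (q : Fin n → ℝ) :
    shF D m t q D.c1 = q D.c1 + t * chi m (q D.c0) := by
  unfold shF
  rw [if_pos rfl]

lemma shF_other (m : ℕ) (t : ℝ) (q : Fin n → ℝ) {s : Fin n} (h : s ≠ D.c1) :
    shF D m t q s = q s := by
  unfold shF
  rw [if_neg h, add_zero]

lemma shF_shF (m : ℕ) (s t : ℝ) (q : Fin n → ℝ) :
    shF D m s (shF D m t q) = shF D m (s + t) q := by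
  ext l
  by_cases h : l = D.c1
  · subst h
    rw [shF_c1, shF_c1, shF_c1, shF_c0]
    ring
  · rw [shF_other D m s _ h, shF_other D m t _ h, shF_other D m (s + t) _ h]

lemma shF_zero (m : ℕ) (q : Fin n → ℝ) : shF D m 0 q = q := by
  ext l
  simp [shF]

/-- the shear as a permutation -/
def shpF (m : ℕ) (t : ℝ) : Equiv.Perm (Fin n → ℝ) where
  toFun := shF D m t
  invFun := shF D m (-t)
  left_inv q := by rw [shF_shF, neg_add_cancel, shF_zero]
  right_inv q := by rw [shF_shF, add_neg_cancel, shF_zero]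

lemma contDiff_shF (m : ℕ) : ContDiff ℝ ∞ (fun p : ℝ × (Fin n → ℝ) => shF D m p.1 p.2) := by
  rw [contDiff_pi]
  intro l
  unfold shF
  have hc : ∀ s : Fin n, ContDiff ℝ ∞ (fun p : ℝ × (Fin n → ℝ) => p.2 s) := fun s =>
    (contDiff_apply ℝ ℝ s).comp contDiff_snd
  refine (hc l).add ?_
  split_ifs
  · exact contDiff_fst.mul ((chi_smooth m).comp (hc D.c0))
  · exact contDiff_const

lemma contDiff_shF' (m : ℕ) (t : ℝ) : ContDiff ℝ ∞ (shF D m t) :=
  (contDiff_shF D m).comp (contDiff_const.prodMk contDiff_id)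

/-- the differential of the shear -/
lemma fderiv_shF (m : ℕ) (t : ℝ) (q v : Fin n → ℝ) (l : Fin n) :
    fderiv ℝ (shF D m t) q v l =
      v l + if l = D.c1 then t * (deriv (chi m) (q D.c0) * v D.c0) else 0 := by
  have hd : DifferentiableAt ℝ (shF D m t) q :=
    (contDiff_shF' D m t).differentiable (by simp) q
  have h1 : HasDerivAt (fun s : ℝ => shF D m t (q + s • v))
      (fderiv ℝ (shF D m t) q v) 0 := by
    have hl : HasDerivAt (fun s : ℝ => q + s • v) v 0 := by
      simpa using ((hasDerivAt_id (0:ℝ)).smul_const v).const_add q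
    have hd' : HasFDerivAt (shF D m t) (fderiv ℝ (shF D m t) q) (q + (0:ℝ) • v) := by
      simpa using hd.hasFDerivAt
    exact hd'.comp_hasDerivAt 0 hl
  have hl : ∀ j, HasDerivAt (fun s : ℝ => q j + s * v j) (v j) 0 := by
    intro j
    simpa using ((hasDerivAt_id (0:ℝ)).mul_const (v j)).const_add (q j)
  have h2 : HasDerivAt (fun s : ℝ => shF D m t (q + s • v) l)
      (v l + if l = D.c1 then t * (deriv (chi m) (q D.c0) * v D.c0) else 0) 0 := by
    have a0 : HasDerivAt (fun s : ℝ => if l = D.c1 then t * chi m (q D.c0 + s * v D.c0) else 0)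
        (if l = D.c1 then t * (deriv (chi m) (q D.c0) * v D.c0) else 0) 0 := by
      split_ifs
      · have hχ : HasDerivAt (chi m) (deriv (chi m) (q D.c0)) (q D.c0 + 0 * v D.c0) := by
          rw [zero_mul, add_zero]
          exact ((chi_smooth m).differentiable (by simp) _).hasDerivAt
        exact (hχ.comp 0 (hl D.c0)).const_mul t
      · exact hasDerivAt_const _ _
    exact (hl l).add a0
  exact (hasDerivAt_pi.1 h1 l).unique h2

lemma mem_distF (q v : Fin n → ℝ) : v ∈ distribution (frF D) q ↔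
    ∀ s, D.isZ s → v s = v D.c1 * (T (q D.c0) * ph (D.idx s) (q D.c1)) := by
  unfold distribution
  rw [Submodule.mem_span_range_iff_exists_fun]
  constructor
  · rintro ⟨c, rfl⟩ s hs
    have h : ∀ l, (∑ k, c k • frF D k q) l =
        c (D.ka l) * (al D l (q D.c0) * be D l (q D.c1)) := by
      intro l
      rw [← sum_frF D c q l, Finset.sum_apply]
      rfl
    rw [h, h, D.hZ s hs, al_Z D hs, be_Z D hs, al_N D D.hc1, be_N D D.hc1]
    ring
  · intro h
    choose g hg using D.hind
    refine ⟨fun k => v (g k), ?_⟩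
    ext s
    have h' : (∑ k, v (g k) • frF D k q) s =
        v (g (D.ka s)) * (al D s (q D.c0) * be D s (q D.c1)) := by
      rw [← sum_frF D (fun k => v (g k)) q s, Finset.sum_apply]
      rfl
    rw [h']
    by_cases hz : D.isZ s
    · have e : g (D.ka s) = D.c1 := D.hnon _ _ (hg _).2 D.hc1 ((hg _).1.trans (D.hZ s hz))
      rw [e, al_Z D hz, be_Z D hz, ← h s hz]
    · have e : g (D.ka s) = s := D.hnon _ _ (hg _).2 hz (hg _).1
      rw [e, al_N D hz, be_N D hz]
      ring

lemma shpF_mem (m : ℕ) (t : ℝ) : shpF D m t ∈ symmetryGroup (distribution (frF D)) := by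
  have hc01 : D.c0 ≠ D.c1 := fun h => D.hk01 (by rw [h])
  refine ⟨contDiff_shF' D m t, contDiff_shF' D m (-t), fun q => ?_⟩
  show (distribution (frF D) q).map
    (fderiv ℝ (shF D m t) q : (Fin n → ℝ) →ₗ[ℝ] (Fin n → ℝ)) =
      distribution (frF D) (shF D m t q)
  -- the conditions at `q` and at its image agree
  have key : ∀ v w : Fin n → ℝ, (∀ s, D.isZ s → w s = v s) →
      w D.c1 = v D.c1 + t * (deriv (chi m) (q D.c0) * v D.c0) →
      (v ∈ distribution (frF D) q ↔ w ∈ distribution (frF D) (shF D m t q)) := by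
    intro v w hvw hw1
    rw [mem_distF, mem_distF, shF_c0, shF_c1]
    rcases le_or_gt (q D.c0) 0 with hx | hx
    · rw [T_zero hx]
      refine forall_congr' fun s => forall_congr' fun hs => ?_
      rw [hvw s hs]
      simp
    · rw [chi_zero m hx, mul_zero, add_zero]
      rw [deriv_chi_zero m hx, zero_mul, mul_zero, add_zero] at hw1
      refine forall_congr' fun s => forall_congr' fun hs => ?_
      rw [hvw s hs, hw1]
  have hsZ : ∀ s, D.isZ s → s ≠ D.c1 := fun s hs h => D.hc1 (h ▸ hs)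
  ext w
  rw [Submodule.mem_map]
  constructor
  · rintro ⟨v, hv, rfl⟩
    rw [ContinuousLinearMap.coe_coe]
    refine (key v _ (fun s hs => ?_) ?_).1 hv
    · rw [fderiv_shF, if_neg (hsZ s hs), add_zero]
    · rw [fderiv_shF, if_pos rfl]
  · intro hw
    refine ⟨fun l => w l - if l = D.c1 then t * (deriv (chi m) (q D.c0) * w D.c0) else 0,
      (key _ w (fun s hs => ?_) ?_).2 hw, ?_⟩
    · show w s = w s - if s = D.c1 then _ else 0
      rw [if_neg (hsZ s hs), sub_zero]
    · show w D.c1 = (w D.c1 - if D.c1 = D.c1 then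
        t * (deriv (chi m) (q D.c0) * w D.c0) else 0) +
        t * (deriv (chi m) (q D.c0) * (w D.c0 - if D.c0 = D.c1 then
          t * (deriv (chi m) (q D.c0) * w D.c0) else 0))
      rw [if_pos rfl, if_neg hc01]
      ring
    · rw [ContinuousLinearMap.coe_coe]
      ext l
      rw [fderiv_shF]
      show (w l - if l = D.c1 then t * (deriv (chi m) (q D.c0) * w D.c0) else 0) +
        (if l = D.c1 then t * (deriv (chi m) (q D.c0) * (w D.c0 - if D.c0 = D.c1 then
          t * (deriv (chi m) (q D.c0) * w D.c0) else 0)) else 0) = w l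
      rw [if_neg hc01, sub_zero]
      ring

/-- the one-parameter group of shears -/
def oneParamF (m : ℕ) (t : ℝ) : symmetryGroup (distribution (frF D)) :=
  ⟨shpF D m t, shpF_mem D m t⟩

lemma oneParamF_add (m : ℕ) (s t : ℝ) :
    oneParamF D m (s + t) = oneParamF D m s * oneParamF D m t := by
  apply Subtype.ext
  apply Equiv.ext
  intro q
  exact (shF_shF D m s t q).symm

theorem not_isFiniteDimLieGroupF :
    ¬ IsFiniteDimLieGroup (symmetryGroup (distribution (frF D))) := by
  rintro ⟨W, _, _, _, L, _, _, _, _, φ, hact, hone⟩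
  set d := Module.finrank ℝ W with hd
  have hc : ∀ m, ContMDiff 𝓘(ℝ, ℝ) 𝓘(ℝ, W) ∞ (fun t => φ.symm (oneParamF D m t)) :=
    fun m => hone (oneParamF D m) (oneParamF_add D m) (contDiff_shF D m)
  -- velocities at the identity of `L`
  let w : Fin (d + 1) → W := fun m =>
    mfderiv 𝓘(ℝ, ℝ) 𝓘(ℝ, W) (fun t => φ.symm (oneParamF D m t)) 0 (1 : ℝ)
  have hw : ¬ LinearIndependent ℝ w := by
    intro hli
    have := hli.fintype_card_le_finrank
    simp [← hd] at this
  obtain ⟨a, ha, i0, hi0⟩ := Fintype.not_linearIndependent_iff.1 hw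
  -- evaluate on points
  have key : ∀ (q : Fin n → ℝ), ∑ m : Fin (d + 1), a m * chi (m : ℕ) (q D.c0) = 0 := by
    intro q
    have hq : ContMDiff 𝓘(ℝ, W) 𝓘(ℝ, Fin n → ℝ) ∞
        (fun g : L => (φ g : Equiv.Perm (Fin n → ℝ)) q) :=
      hact.comp (contMDiff_id.prodMk contMDiff_const)
    have e0 : ∀ m, φ.symm (oneParamF D m 0) = 1 := by
      intro m
      have : oneParamF D m 0 = 1 := by
        have h := oneParamF_add D m 0 0
        rw [add_zero] at h
        exact left_eq_mul.1 h
      rw [this, map_one]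
    let A : W →L[ℝ] (Fin n → ℝ) :=
      mfderiv 𝓘(ℝ, W) 𝓘(ℝ, Fin n → ℝ) (fun g : L => (φ g : Equiv.Perm (Fin n → ℝ)) q) 1
    have hD : ∀ m : Fin (d + 1), A (w m) D.c1 = chi (m : ℕ) (q D.c0) := by
      intro m
      have h1 : HasMFDerivAt 𝓘(ℝ, ℝ) 𝓘(ℝ, W) (fun t => φ.symm (oneParamF D m t)) 0
          (mfderiv 𝓘(ℝ, ℝ) 𝓘(ℝ, W) (fun t => φ.symm (oneParamF D m t)) 0) :=
        ((hc m).mdifferentiable (by simp) 0).hasMFDerivAt
      have h2 : HasMFDerivAt 𝓘(ℝ, W) 𝓘(ℝ, Fin n → ℝ)
          (fun g : L => (φ g : Equiv.Perm (Fin n → ℝ)) q) (φ.symm (oneParamF D m 0)) A := by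
        rw [e0 m]
        exact (hq.mdifferentiable (by simp) 1).hasMFDerivAt
      have h3 := h2.comp (0 : ℝ) h1
      have h4 : ((fun g : L => (φ g : Equiv.Perm (Fin n → ℝ)) q) ∘
          fun t => φ.symm (oneParamF D m t)) = fun t => shF D m t q := by
        ext1 t
        simp only [Function.comp_apply, MulEquiv.apply_symm_apply]
        rfl
      rw [h4] at h3
      let W' : ℝ →L[ℝ] W :=
        mfderiv 𝓘(ℝ, ℝ) 𝓘(ℝ, W) (fun t => φ.symm (oneParamF D m t)) 0
      have h5' : HasFDerivAt (fun t => shF D m t q) (A.comp W') 0 := h3.hasFDerivAt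
      have h5 : HasDerivAt (fun t => shF D m t q) (A (w m)) 0 := h5'.hasDerivAt
      have h6 := hasDerivAt_pi.1 h5 D.c1
      have h7 : HasDerivAt (fun t : ℝ => shF D m t q D.c1) (chi (m : ℕ) (q D.c0)) 0 := by
        simp only [shF_c1]
        simpa using ((hasDerivAt_id (0 : ℝ)).mul_const (chi (m : ℕ) (q D.c0))).const_add (q D.c1)
      exact h6.unique h7
    have h6 := congrArg (fun x : W => A x D.c1) ha
    simp only [map_sum, map_smul, map_zero, Finset.sum_apply, Pi.smul_apply, hD,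
      smul_eq_mul, Pi.zero_apply] at h6
    exact h6
  -- a nonzero polynomial with infinitely many zeros
  let p : Polynomial ℝ := ∑ m : Fin (d + 1), Polynomial.C (a m) * Polynomial.X ^ (m : ℕ)
  have hp : p = 0 := by
    apply Polynomial.eq_zero_of_infinite_isRoot
    refine Set.Infinite.mono (s := Iic (-1 : ℝ)) (fun x hx => ?_) (Iic_infinite _)
    have h1 := key (fun _ => x)
    simp only [chi_neg _ hx] at h1
    show p.eval x = 0
    simp only [p, Polynomial.eval_finsetSum, Polynomial.eval_mul, Polynomial.eval_C,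
      Polynomial.eval_pow, Polynomial.eval_X]
    exact h1
  apply hi0
  have h8 : p.coeff (i0 : ℕ) = a i0 := by
    simp only [p, Polynomial.finsetSum_coeff, Polynomial.coeff_C_mul_X_pow]
    rw [Finset.sum_eq_single i0]
    · simp
    · intro b _ hb
      rw [if_neg]
      intro h
      exact hb (Fin.ext h.symm)
    · simp
  rw [← h8, hp, Polynomial.coeff_zero]

end

end Pool.Agent.Y391.ST
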