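import Pool.Agent.Y391.ST.Main
import Pool.Agent.Y391.ST.FlexReach
import Pool.Agent.Y391.ST.FlexSym

/-!
# Examples of every rank `r ≥ 2` in every dimension `n ≥ r + 2`
-/

set_option autoImplicit false

namespace Pool.Agent.Y391.ST

open Set MeasureTheory Filter Topology
open scoped ContDiff Manifold

noncomputable section

/-- the control of the coordinate `s` -/
def kf (N s : ℕ) : ℕ := if s = 0 then 0 else if s < 2 + N then 1 else s - N

lemma kf_zero (N : ℕ) : kf N 0 = 0 := if_pos rfl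

lemma kf_mid (N s : ℕ) (h1 : 1 ≤ s) (h : s < 2 + N) : kf N s = 1 := by
  unfold kf
  rw [if_neg (by omega), if_pos h]

lemma kf_big (N s : ℕ) (h : 2 + N ≤ s) : kf N s = s - N := by
  unfold kf
  rw [if_neg (by omega), if_neg (by omega)]

lemma kf_cases (N s : ℕ) : (s = 0 ∧ kf N s = 0) ∨ (1 ≤ s ∧ s < 2 + N ∧ kf N s = 1) ∨
    (2 + N ≤ s ∧ kf N s = s - N) := by
  rcases Nat.eq_zero_or_pos s with h | h
  · exact Or.inl ⟨h, by rw [h, kf_zero]⟩
  · rcases Nat.lt_or_ge s (2 + N) with h1 | h1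
    · exact Or.inr (Or.inl ⟨h, h1, kf_mid N s h h1⟩)
    · exact Or.inr (Or.inr ⟨h1, kf_big N s h1⟩)

/-- The labels: `x`, `y`, then `n - r` coordinates `z_j`, then `r - 2` free coordinates. -/
def flex (r n : ℕ) (hr : 2 ≤ r) (hn : r + 2 ≤ n) : Flex r n where
  ka s := ⟨kf (n - r) s, by
    have h := kf_cases (n - r) s
    have hs := s.2
    omega⟩
  c0 := ⟨0, by omega⟩
  c1 := ⟨1, by omega⟩
  isZ s := 2 ≤ (s : ℕ) ∧ (s : ℕ) < 2 + (n - r)
  idx s := (s : ℕ) - 2
  z0 := ⟨2, by omega⟩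
  z1 := ⟨3, by omega⟩
  hk01 h := by
    have h1 : kf (n - r) 0 = kf (n - r) 1 := congrArg Fin.val h
    rw [kf_zero, kf_mid _ 1 le_rfl (by omega)] at h1
    omega
  hz0 := ⟨⟨le_rfl, by show 2 < 2 + (n - r); omega⟩, rfl⟩
  hz1 := ⟨⟨by show 2 ≤ 3; omega, by show 3 < 2 + (n - r); omega⟩, rfl⟩
  hc0 h := by
    have h1 : 2 ≤ 0 := h.1
    omega
  hc1 h := by
    have h1 : 2 ≤ 1 := h.1
    omega
  hZ s hs := Fin.ext (by
    show kf (n - r) s = kf (n - r) 1
    rw [kf_mid _ s (by omega) hs.2, kf_mid _ 1 le_rfl (by omega)])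
  hinj s s' hs hs' h := Fin.ext (by
    have h1 : (s : ℕ) - 2 = (s' : ℕ) - 2 := h
    have h2 := hs.1
    have h3 := hs'.1
    omega)
  hnon s s' hs hs' h := Fin.ext (by
    have h1 : kf (n - r) s = kf (n - r) s' := congrArg Fin.val h
    have h2 := kf_cases (n - r) s
    have h3 := kf_cases (n - r) s'
    have h4 : ¬ (2 ≤ (s : ℕ) ∧ (s : ℕ) < 2 + (n - r)) := hs
    have h5 : ¬ (2 ≤ (s' : ℕ) ∧ (s' : ℕ) < 2 + (n - r)) := hs'
    omega)
  hind k := by
    have hk := k.2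
    rcases Nat.lt_or_ge (k : ℕ) 2 with h | h
    · rcases Nat.eq_zero_or_pos (k : ℕ) with h0 | h0
      · refine ⟨⟨0, by omega⟩, Fin.ext ?_, fun h' => ?_⟩
        · show kf (n - r) 0 = k
          rw [kf_zero, h0]
        · have h1 : 2 ≤ 0 := h'.1
          omega
      · refine ⟨⟨1, by omega⟩, Fin.ext ?_, fun h' => ?_⟩
        · show kf (n - r) 1 = k
          rw [kf_mid _ 1 le_rfl (by omega)]
          omega
        · have h1 : 2 ≤ 1 := h'.1
          omega
    · refine ⟨⟨k + (n - r), by omega⟩, Fin.ext ?_, fun h' => ?_⟩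
      · show kf (n - r) (k + (n - r)) = k
        rw [kf_big _ _ (by omega)]
        omega
      · have h1 : (k : ℕ) + (n - r) < 2 + (n - r) := h'.2
        omega

/-- **Singular transitive distributions with infinite-dimensional symmetry groups**, for all ranks
`r ≥ 2` and all dimensions `n ≥ r + 2`. -/
theorem mainAll (r n : ℕ) (hr : 2 ≤ r) (hn : r + 2 ≤ n) :
    ∃ X : Fin r → (Fin n → ℝ) → (Fin n → ℝ),
      (∀ i, ContDiff ℝ ∞ (X i)) ∧ (∀ q, LinearIndependent ℝ (fun i => X i q)) ∧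
        SingularTransitive X ∧ ¬ IsFiniteDimLieGroup (symmetryGroup (distribution X)) :=
  ⟨frF (flex r n hr hn), frF_smooth _, frF_linearIndependent _, singularTransitive_frF _,
    not_isFiniteDimLieGroupF _⟩

/-- The frames of `main` are polynomial. -/
theorem mainPoly (r n : ℕ) (hr : 4 ≤ r) (hn : r + 2 ≤ n) :
    ∃ X : Fin r → (Fin n → ℝ) → (Fin n → ℝ),
      (∀ i s, ∃ p : MvPolynomial (Fin n) ℝ, ∀ q, X i q s = MvPolynomial.eval q p) ∧
      (∀ i, ContDiff ℝ ∞ (X i)) ∧ (∀ q, LinearIndependent ℝ (fun i => X i q)) ∧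
        SingularTransitive X ∧ ¬ IsFiniteDimLieGroup (symmetryGroup (distribution X)) := by
  obtain ⟨c, rfl⟩ : ∃ c, r = 4 + c := ⟨r - 4, by omega⟩
  obtain ⟨a, rfl⟩ : ∃ a, n = 5 + a + c := ⟨n - 5 - c, by omega⟩
  have ha : 1 ≤ a := by omega
  refine ⟨fr (dat a c ha), fun i s => ?_, fr_smooth _, fr_linearIndependent _,
    singularTransitive_fr _, not_isFiniteDimLieGroup (block a c ha)⟩
  by_cases h : (dat a c ha).ka s = i
  · refine ⟨MvPolynomial.X ((dat a c ha).b s) ^ (dat a c ha).m s, fun q => ?_⟩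
    rw [map_pow, MvPolynomial.eval_X]
    exact if_pos h
  · refine ⟨0, fun q => ?_⟩
    rw [map_zero]
    exact if_neg h

end

end Pool.Agent.Y391.ST
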