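import Mathlib

/-!
# Singular curves, singular transitivity and the symmetry group of a distribution: definitions

The definitions (and the lemmas on primitives of `L²` functions) are those of the starting file
`Pool/Agent/Results/MP_27f38a_gt/ProductContact.lean`.
-/

set_option autoImplicit false

namespace Pool.Agent.Y391.ST

open Set MeasureTheory Filter Topology
open scoped ContDiff Manifold

noncomputable section

/-- Lebesgue measure on `[0,1]` -/
def leb : Measure ℝ := volume.restrict (Icc (0 : ℝ) 1)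

/-- The Banach space `L²([0,1], ℝᵏ)` of controls (as the `k`-fold power of `L²([0,1])`). -/
abbrev Control (k : ℕ) : Type := Fin k → Lp ℝ 2 leb

variable {V : Type} [NormedAddCommGroup V] [NormedSpace ℝ V] {k : ℕ}

/-- `γ : [0,1] → V` is the admissible path starting at `q` with control `u`, for the distribution
spanned by the frame `X`: it is continuous and `γ(t) = q + ∫₀ᵗ ∑ᵢ uᵢ(s) Xᵢ(γ(s)) ds`. -/
def IsTrajectory (X : Fin k → V → V) (q : V) (u : Control k) (γ : ℝ → V) : Prop :=
  ContinuousOn γ (Icc 0 1) ∧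
    ∀ t ∈ Icc (0 : ℝ) 1, γ t = q + ∫ s in (0 : ℝ)..t, ∑ i, u i s • X i (γ s)

/-- Near `u` the relation `R` is the graph of a map `F`, and `u` is a critical point of `F`: the
differential of `F` at `u` is not surjective. -/
def IsCriticalAt {U W : Type} [NormedAddCommGroup U] [NormedSpace ℝ U] [NormedAddCommGroup W]
    [NormedSpace ℝ W] (R : U → W → Prop) (u : U) : Prop :=
  ∃ (F : U → W) (A : U →L[ℝ] W), (∀ᶠ v in 𝓝 u, ∀ y, R v y ↔ y = F v) ∧ HasFDerivAt F A u ∧
    ¬ Function.Surjective A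

/-- A singular curve of the distribution spanned by the frame `X`: an admissible path `γ` whose
control `u` is a critical point of the endpoint map, which sends a control `v` to the endpoint
`η(1)` of the admissible path `η` with control `v` and the same starting point `γ(0)`. -/
def IsSingularCurve (X : Fin k → V → V) (γ : ℝ → V) : Prop :=
  ∃ u : Control k, IsTrajectory X (γ 0) u γ ∧
    IsCriticalAt (fun v y => ∃ η, IsTrajectory X (γ 0) v η ∧ η 1 = y) u

/-- Any two points can be joined by a finite concatenation of singular curves. -/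
def SingularTransitive (X : Fin k → V → V) : Prop :=
  ∀ p q : V, Relation.ReflTransGen (fun a b => ∃ γ, IsSingularCurve X γ ∧ γ 0 = a ∧ γ 1 = b) p q

/-- The distribution `Δ` spanned by the frame `X`. -/
def distribution (X : Fin k → V → V) (q : V) : Submodule ℝ V :=
  Submodule.span ℝ (range fun i => X i q)

/-- The symmetry group of a distribution `Δ` on the vector space `V` (`= ℝⁿ`): all smooth
diffeomorphisms `Φ` of `V` with `Φ_* Δ = Δ`. -/
def symmetryGroup (Δ : V → Submodule ℝ V) : Subgroup (Equiv.Perm V) where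
  carrier := {Φ | ContDiff ℝ ∞ Φ ∧ ContDiff ℝ ∞ Φ.symm ∧
    ∀ q, (Δ q).map (fderiv ℝ Φ q : V →ₗ[ℝ] V) = Δ (Φ q)}
  one_mem' := by
    refine ⟨contDiff_id, contDiff_id, fun q => ?_⟩
    have h : fderiv ℝ (⇑(1 : Equiv.Perm V)) q = ContinuousLinearMap.id ℝ _ := by
      have : (⇑(1 : Equiv.Perm V)) = id := rfl
      rw [this, fderiv_id]
    rw [h]
    simp
  mul_mem' := by
    rintro Φ Ψ ⟨h1, h2, h3⟩ ⟨g1, g2, g3⟩
    refine ⟨h1.comp g1, g2.comp h2, fun q => ?_⟩
    have h : fderiv ℝ (⇑(Φ * Ψ)) q = (fderiv ℝ Φ (Ψ q)).comp (fderiv ℝ Ψ q) := by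
      have : (⇑(Φ * Ψ)) = Φ ∘ Ψ := rfl
      rw [this]
      exact fderiv_comp q (h1.differentiable (by simp) _) (g1.differentiable (by simp) _)
    have h' : ((fderiv ℝ Φ (Ψ q)).comp (fderiv ℝ Ψ q) : V →ₗ[ℝ] V) =
      (fderiv ℝ Φ (Ψ q) : V →ₗ[ℝ] V) ∘ₗ (fderiv ℝ Ψ q : V →ₗ[ℝ] V) := rfl
    rw [h, h', Submodule.map_comp, g3 q, h3 (Ψ q)]
    rfl
  inv_mem' := by
    rintro Φ ⟨h1, h2, h3⟩
    refine ⟨h2, h1, fun q => ?_⟩
    have e : Φ (Φ.symm q) = q := Φ.apply_symm_apply q
    have h : (fderiv ℝ Φ.symm q).comp (fderiv ℝ Φ (Φ.symm q)) = ContinuousLinearMap.id ℝ _ := by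
      have h4 : fderiv ℝ (Φ.symm ∘ Φ) (Φ.symm q) =
          (fderiv ℝ Φ.symm (Φ (Φ.symm q))).comp (fderiv ℝ Φ (Φ.symm q)) :=
        fderiv_comp _ (h2.differentiable (by simp) _) (h1.differentiable (by simp) _)
      have h5 : Φ.symm ∘ Φ = id := by ext1 x; simp
      rw [h5, fderiv_id, e] at h4
      exact h4.symm
    have h6 := h3 (Φ.symm q)
    rw [e] at h6
    show (Δ q).map (fderiv ℝ Φ.symm q : V →ₗ[ℝ] V) = Δ (Φ.symm q)
    have h' : (fderiv ℝ Φ.symm q : V →ₗ[ℝ] V) ∘ₗ
        (fderiv ℝ Φ (Φ.symm q) : V →ₗ[ℝ] V) = LinearMap.id := by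
      refine LinearMap.ext fun v => ?_
      exact congrArg (fun f : V →L[ℝ] V => f v) h
    rw [← h6, ← Submodule.map_comp, h', Submodule.map_id]

/-- A group `G` of transformations of `V` is a finite-dimensional Lie group (of transformations):
there are a finite-dimensional real Lie group `L` (modelled on a finite-dimensional space `W`;
neither the Hausdorff property nor second countability is asked for) and a group isomorphism
`φ : L ≃ G` such that `L` acts smoothly through `φ`, and such that every smooth one-parameter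
group of transformations belonging to `G` is a smooth curve in `L`. -/
def IsFiniteDimLieGroup (G : Subgroup (Equiv.Perm V)) : Prop :=
  ∃ (W : Type) (_ : NormedAddCommGroup W) (_ : NormedSpace ℝ W) (_ : FiniteDimensional ℝ W)
    (L : Type) (_ : TopologicalSpace L) (_ : ChartedSpace W L) (_ : Group L)
    (_ : LieGroup 𝓘(ℝ, W) ∞ L) (φ : L ≃* G),
    ContMDiff (𝓘(ℝ, W).prod 𝓘(ℝ, V)) 𝓘(ℝ, V) ∞
      (fun p : L × V => (φ p.1 : Equiv.Perm V) p.2) ∧
    ∀ c : ℝ → G, (∀ s t, c (s + t) = c s * c t) →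
      ContDiff ℝ ∞ (fun p : ℝ × V => (c p.1 : Equiv.Perm V) p.2) →
      ContMDiff 𝓘(ℝ, ℝ) 𝓘(ℝ, W) ∞ (fun t => φ.symm (c t))

/-- Sanity check: the trivial group of transformations is a finite-dimensional Lie group in the
sense of `IsFiniteDimLieGroup` (of dimension `0`). -/
lemma isFiniteDimLieGroup_bot : IsFiniteDimLieGroup (⊥ : Subgroup (Equiv.Perm V)) := by
  let L := EuclideanSpace ℝ (Fin 0)
  let gL : Group L :=
    { mul := fun _ _ => 0
      one := 0
      inv := fun _ => 0
      mul_assoc := fun _ _ _ => Subsingleton.elim _ _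
      one_mul := fun _ => Subsingleton.elim _ _
      mul_one := fun _ => Subsingleton.elim _ _
      inv_mul_cancel := fun _ => Subsingleton.elim _ _ }
  have lL : LieGroup (𝓡 0) ∞ L :=
    { contMDiff_mul := by
        have : (fun p : L × L => p.1 * p.2) = fun _ => (0 : L) := by
          ext1 p; exact Subsingleton.elim _ _
        rw [this]; exact contMDiff_const
      contMDiff_inv := by
        have : (fun p : L => p⁻¹) = fun _ => (0 : L) := by
          ext1 p; exact Subsingleton.elim _ _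
        rw [this]; exact contMDiff_const }
  let φ : L ≃* (⊥ : Subgroup (Equiv.Perm V)) :=
    { toFun := fun _ => 1
      invFun := fun _ => 0
      left_inv := fun _ => Subsingleton.elim _ _
      right_inv := fun _ => Subsingleton.elim _ _
      map_mul' := fun _ _ => (mul_one _).symm }
  refine ⟨L, inferInstance, inferInstance, inferInstance, L, inferInstance, inferInstance, gL, lL,
    φ, ?_, ?_⟩
  · exact contMDiff_snd
  · intro c _ _
    exact contMDiff_const (c := (0 : L))

/-! ### Primitives of `L²` functions -/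

instance : IsProbabilityMeasure leb := ⟨by simp [leb]⟩

/-- `∫₀ᵗ f` -/
def P (f : Lp ℝ 2 leb) (t : ℝ) : ℝ := ∫ s in (0 : ℝ)..t, f s

lemma integrable_Lp (f : Lp ℝ 2 leb) :
    Integrable f leb :=
  (Lp.memLp f).integrable (by norm_num)

lemma intervalIntegrable_Lp (f : Lp ℝ 2 leb) {t : ℝ}
    (ht : t ∈ Icc (0 : ℝ) 1) : IntervalIntegrable f volume 0 t := by
  rw [intervalIntegrable_iff_integrableOn_Icc_of_le ht.1]
  exact IntegrableOn.mono_set (integrable_Lp f) (Icc_subset_Icc le_rfl ht.2)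

lemma P_eq (f : Lp ℝ 2 leb) {t : ℝ} (ht : t ∈ Icc (0 : ℝ) 1) :
    P f t = ∫ s in Icc (0:ℝ) t, f s := by
  rw [P, intervalIntegral.integral_of_le ht.1, integral_Icc_eq_integral_Ioc]

lemma integral_abs_le (f : Lp ℝ 2 leb) :
    ∫ s in Icc (0:ℝ) 1, |f s| ≤ ‖f‖ := by
  have h1 : ∫ s in Icc (0:ℝ) 1, |f s| = (eLpNorm f 1 leb).toReal := by
    rw [eLpNorm_one_eq_lintegral_enorm]
    rw [← integral_norm_eq_lintegral_enorm (integrable_Lp f).aestronglyMeasurable]
    rfl
  rw [h1, Lp.norm_def]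
  apply ENNReal.toReal_mono (Lp.eLpNorm_ne_top f)
  exact eLpNorm_le_eLpNorm_of_exponent_le (by norm_num) (Lp.memLp f).aestronglyMeasurable

lemma abs_P_le (f : Lp ℝ 2 leb) {t : ℝ} (ht : t ∈ Icc (0 : ℝ) 1) :
    |P f t| ≤ ‖f‖ := by
  refine le_trans ?_ (integral_abs_le f)
  rw [P_eq f ht]
  refine (abs_integral_le_integral_abs).trans ?_
  apply setIntegral_mono_set (integrable_Lp f).norm
  · exact ae_of_all _ fun _ => abs_nonneg _
  · exact (Icc_subset_Icc le_rfl ht.2).eventuallyLE

lemma continuousOn_P (f : Lp ℝ 2 leb) :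
    ContinuousOn (P f) (Icc 0 1) := by
  have := intervalIntegral.continuousOn_primitive_interval (μ := volume) (a := 0) (b := 1)
    (f := (f : ℝ → ℝ)) (by rw [uIcc_of_le zero_le_one]; exact integrable_Lp f)
  rwa [uIcc_of_le zero_le_one] at this

lemma ae_Icc_of {f g : ℝ → ℝ} (h : f =ᵐ[leb] g) {t : ℝ}
    (ht : t ∈ Icc (0 : ℝ) 1) : f =ᵐ[volume.restrict (Icc (0 : ℝ) t)] g :=
  ae_restrict_of_ae_restrict_of_subset (Icc_subset_Icc le_rfl ht.2) h

lemma P_add (f g : Lp ℝ 2 leb) {t : ℝ} (ht : t ∈ Icc (0 : ℝ) 1) :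
    P (f + g) t = P f t + P g t := by
  rw [P_eq _ ht, P_eq _ ht, P_eq _ ht, ← integral_add]
  · exact integral_congr_ae (ae_Icc_of (Lp.coeFn_add f g) ht)
  · exact IntegrableOn.mono_set (integrable_Lp f) (Icc_subset_Icc le_rfl ht.2)
  · exact IntegrableOn.mono_set (integrable_Lp g) (Icc_subset_Icc le_rfl ht.2)

lemma P_smul (c : ℝ) (f : Lp ℝ 2 leb) {t : ℝ}
    (ht : t ∈ Icc (0 : ℝ) 1) : P (c • f) t = c * P f t := by
  rw [P_eq _ ht, P_eq _ ht, ← integral_const_mul]
  exact integral_congr_ae (ae_Icc_of (Lp.coeFn_smul c f) ht)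

/-- the constant function `c` in `L²([0,1])` -/
def cst (c : ℝ) : Lp ℝ 2 leb :=
  MemLp.toLp (fun _ => c) (memLp_const c)

lemma P_cst (c : ℝ) {t : ℝ} (ht : t ∈ Icc (0 : ℝ) 1) : P (cst c) t = c * t := by
  rw [P_eq _ ht]
  have := integral_congr_ae (ae_Icc_of (MemLp.coeFn_toLp (memLp_const (p := 2)
    (μ := leb) c)) ht)
  rw [cst, this]
  simp [ht.1]
  ring

lemma P_zero (t : ℝ) (ht : t ∈ Icc (0 : ℝ) 1) : P 0 t = 0 := by
  have := P_smul 0 0 ht
  simpa using this

/-- the functional `f ↦ ∫₀¹ f` on `L²([0,1])` -/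
def J : Lp ℝ 2 leb →L[ℝ] ℝ :=
  LinearMap.mkContinuous
    { toFun := fun f => P f 1
      map_add' := fun f g => P_add f g ⟨zero_le_one, le_rfl⟩
      map_smul' := fun c f => P_smul c f ⟨zero_le_one, le_rfl⟩ } 1
    (fun f => by rw [one_mul]; exact abs_P_le f ⟨zero_le_one, le_rfl⟩)

lemma J_apply (f : Lp ℝ 2 leb) : J f = P f 1 := rfl

end

end Pool.Agent.Y391.ST
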