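import Pool.Agent.Y391.ST.Nem

/-!
# Frames `∂_x`, `∂_y + ∑ T(x) T'(y - 2 j) ∂_{z_j}`, `∂_{w_k}`: singular transitivity
-/

set_option autoImplicit false

namespace Pool.Agent.Y391.ST

open Set MeasureTheory Filter Topology
open scoped ContDiff Manifold

noncomputable section

/-- a smooth step: `0` for `x ≤ 0` and `1` for `x ≥ 1` -/
def T (x : ℝ) : ℝ := Real.smoothTransition x

lemma T_smooth : ContDiff ℝ ∞ T := Real.smoothTransition.contDiff
lemma T_zero {x : ℝ} (h : x ≤ 0) : T x = 0 := Real.smoothTransition.zero_of_nonpos h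
lemma T_one {x : ℝ} (h : 1 ≤ x) : T x = 1 := Real.smoothTransition.one_of_one_le h

/-- the step at `2 j` -/
def Ph (j : ℕ) (y : ℝ) : ℝ := T (y - 2 * j)

lemma Ph_smooth (j : ℕ) : ContDiff ℝ ∞ (Ph j) := T_smooth.comp (contDiff_id.sub contDiff_const)

/-- its derivative -/
def ph (j : ℕ) : ℝ → ℝ := deriv (Ph j)

lemma ph_smooth (j : ℕ) : ContDiff ℝ ∞ (ph j) := (contDiff_infty_iff_deriv.1 (Ph_smooth j)).2

lemma hasDerivAt_Ph (j : ℕ) (y : ℝ) : HasDerivAt (Ph j) (ph j y) y :=
  ((Ph_smooth j).differentiable (by simp) y).hasDerivAt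

lemma ph_zero (j : ℕ) {y : ℝ} (h : y < 2 * j ∨ 2 * j + 1 < y) : ph j y = 0 := by
  rcases h with h | h
  · have : Ph j =ᶠ[𝓝 y] fun _ => 0 := by
      filter_upwards [Iio_mem_nhds h] with z hz
      have hz' : z < 2 * j := hz
      exact T_zero (by linarith)
    rw [ph, this.deriv_eq]
    simp
  · have : Ph j =ᶠ[𝓝 y] fun _ => 1 := by
      filter_upwards [Ioi_mem_nhds h] with z hz
      have hz' : 2 * j + 1 < z := hz
      exact T_one (by linarith)
    rw [ph, this.deriv_eq]
    simp

/-- The labels of the coordinates and of the controls. -/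
structure Flex (r n : ℕ) where
  ka : Fin n → Fin r
  c0 : Fin n
  c1 : Fin n
  isZ : Fin n → Prop
  idx : Fin n → ℕ
  z0 : Fin n
  z1 : Fin n
  hk01 : ka c0 ≠ ka c1
  hz0 : isZ z0 ∧ idx z0 = 0
  hz1 : isZ z1 ∧ idx z1 = 1
  hc0 : ¬ isZ c0
  hc1 : ¬ isZ c1
  hZ : ∀ s, isZ s → ka s = ka c1
  hinj : ∀ s s', isZ s → isZ s' → idx s = idx s' → s = s'
  hnon : ∀ s s', ¬ isZ s → ¬ isZ s' → ka s = ka s' → s = s'
  hind : ∀ k, ∃ s, ka s = k ∧ ¬ isZ s

variable {r n : ℕ} (D : Flex r n)

open Classical in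
/-- the factor in `x` -/
def al (s : Fin n) : ℝ → ℝ := if D.isZ s then T else fun _ => 1

open Classical in
/-- the factor in `y` -/
def be (s : Fin n) : ℝ → ℝ := if D.isZ s then ph (D.idx s) else fun _ => 1

lemma al_smooth (s : Fin n) : ContDiff ℝ ∞ (al D s) := by
  unfold al
  split_ifs
  · exact T_smooth
  · exact contDiff_const

lemma be_smooth (s : Fin n) : ContDiff ℝ ∞ (be D s) := by
  unfold be
  split_ifs
  · exact ph_smooth _
  · exact contDiff_const

lemma al_Z {s : Fin n} (h : D.isZ s) : al D s = T := if_pos h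
lemma be_Z {s : Fin n} (h : D.isZ s) : be D s = ph (D.idx s) := if_pos h
lemma al_N {s : Fin n} (h : ¬ D.isZ s) : al D s = fun _ => 1 := if_neg h
lemma be_N {s : Fin n} (h : ¬ D.isZ s) : be D s = fun _ => 1 := if_neg h

/-- the frame -/
def frF (k : Fin r) (q : Fin n → ℝ) : Fin n → ℝ :=
  fun s => if D.ka s = k then al D s (q D.c0) * be D s (q D.c1) else 0

lemma sum_frF (a : Fin r → ℝ) (q : Fin n → ℝ) (s : Fin n) :
    ∑ k, a k * frF D k q s = a (D.ka s) * (al D s (q D.c0) * be D s (q D.c1)) := by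
  unfold frF
  simp

lemma frF_smooth (k : Fin r) : ContDiff ℝ ∞ (frF D k) := by
  rw [contDiff_pi]
  intro s
  unfold frF
  split_ifs
  · exact ((al_smooth D s).comp (contDiff_apply ℝ ℝ D.c0)).mul
      ((be_smooth D s).comp (contDiff_apply ℝ ℝ D.c1))
  · exact contDiff_const

lemma frF_linearIndependent (q : Fin n → ℝ) : LinearIndependent ℝ (fun k => frF D k q) := by
  rw [Fintype.linearIndependent_iff]
  intro g hg k
  obtain ⟨s, hs, hm⟩ := D.hind k
  have h := sum_frF D g q s
  have h2 := congrFun hg s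
  rw [Finset.sum_apply] at h2
  simp only [Pi.smul_apply, smul_eq_mul, Pi.zero_apply] at h2
  rw [h2, al_N D hm, be_N D hm, hs] at h
  simpa using h.symm

/-- coordinates of the integral equation -/
lemma integral_frF (u : Control r) {γ : ℝ → (Fin n → ℝ)} (hγ : ContinuousOn γ (Icc 0 1))
    {t : ℝ} (ht : t ∈ Icc (0 : ℝ) 1) (s : Fin n) :
    (∫ τ in (0 : ℝ)..t, ∑ k, u k τ • frF D k (γ τ)) s =
      ∫ τ in (0 : ℝ)..t, u (D.ka s) τ * (al D s (γ τ D.c0) * be D s (γ τ D.c1)) := by
  have hint : IntervalIntegrable (fun τ => ∑ k, u k τ • frF D k (γ τ)) volume 0 t := by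
    have h1 : ∀ i ∈ Finset.univ, IntervalIntegrable (fun τ => u i τ • frF D i (γ τ))
        volume 0 t := by
      intro i _
      apply (intervalIntegrable_Lp (u i) ht).smul_continuousOn
      rw [uIcc_of_le ht.1]
      exact (frF_smooth D i).continuous.comp_continuousOn
        (hγ.mono (Icc_subset_Icc le_rfl ht.2))
    have h2 := IntervalIntegrable.sum _ h1
    have e : (fun τ => ∑ i, u i τ • frF D i (γ τ)) = ∑ i, fun τ => u i τ • frF D i (γ τ) := by
      funext τ
      rw [Finset.sum_apply]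
    rw [e]
    exact h2
  have h3 := (ContinuousLinearMap.proj (R := ℝ) (φ := fun _ : Fin n => ℝ)
    s).intervalIntegral_comp_comm hint
  simp only [ContinuousLinearMap.proj_apply] at h3
  rw [← h3]
  congr 1
  ext1 τ
  rw [Finset.sum_apply]
  exact sum_frF D (fun i => u i τ) (γ τ) s

/-- the path of the coordinates `x`, `y` -/
def xp (q : Fin n → ℝ) (c : Fin n) (u : Control r) : C(I01, ℝ) :=
  ContinuousMap.const _ (q c) + PC (u (D.ka c))

/-- the trajectories -/
def trajF (q : Fin n → ℝ) (u : Control r) (t : ℝ) : Fin n → ℝ := fun s =>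
  q s + ∫ τ in (0 : ℝ)..t, u (D.ka s) τ *
    (al D s (q D.c0 + P (u (D.ka D.c0)) τ) * be D s (q D.c1 + P (u (D.ka D.c1)) τ))

lemma trajF_N (q : Fin n → ℝ) (u : Control r) (t : ℝ) {s : Fin n} (hs : ¬ D.isZ s) :
    trajF D q u t s = q s + P (u (D.ka s)) t := by
  unfold trajF
  rw [al_N D hs, be_N D hs]
  simp only [mul_one]
  rfl

lemma trajF_zero (q : Fin n → ℝ) (u : Control r) : trajF D q u 0 = q := by
  ext s
  simp [trajF]

lemma trajF_isTrajectory (q : Fin n → ℝ) (u : Control r) :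
    IsTrajectory (frF D) q u (trajF D q u) := by
  have hcont : ContinuousOn (trajF D q u) (Icc 0 1) := by
    rw [continuousOn_pi]
    intro s
    exact continuousOn_const.add (continuousOn_prim _
      (((al_smooth D s).continuous.comp_continuousOn
        (continuousOn_const.add (continuousOn_P _))).mul
      ((be_smooth D s).continuous.comp_continuousOn
        (continuousOn_const.add (continuousOn_P _)))))
  refine ⟨hcont, ?_⟩
  intro t ht
  ext s
  rw [Pi.add_apply, integral_frF D u hcont ht s]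
  simp only [trajF_N D q u _ D.hc0, trajF_N D q u _ D.hc1]
  rfl

/-- the factor of the coordinate `s`, as a continuous function of time -/
def ps (q : Fin n → ℝ) (s : Fin n) (u : Control r) : C(I01, ℝ) :=
  Nm (al D s) (al_smooth D s).continuous (xp D q D.c0 u) *
    Nm (be D s) (be_smooth D s).continuous (xp D q D.c1 u)

/-- the endpoint map -/
def EF (q : Fin n → ℝ) (u : Control r) : Fin n → ℝ := fun s =>
  q s + BC (u (D.ka s)) (ps D q s u)

lemma trajF_unique (q : Fin n → ℝ) (u : Control r) (η : ℝ → (Fin n → ℝ))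
    (h : IsTrajectory (frF D) q u η) : η 1 = EF D q u := by
  have h2 : ∀ t ∈ Icc (0:ℝ) 1, ∀ s, η t s = q s + ∫ τ in (0 : ℝ)..t,
      u (D.ka s) τ * (al D s (η τ D.c0) * be D s (η τ D.c1)) := by
    intro t ht s
    rw [← integral_frF D u h.1 ht s, ← Pi.add_apply, ← h.2 t ht]
  have hb : ∀ t ∈ Icc (0:ℝ) 1, ∀ s, ¬ D.isZ s → η t s = q s + P (u (D.ka s)) t := by
    intro t ht s hs
    rw [h2 t ht s, al_N D hs, be_N D hs]
    simp only [mul_one]
    rfl
  ext s
  rw [h2 1 ⟨zero_le_one, le_rfl⟩ s]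
  show _ = q s + BC (u (D.ka s)) (ps D q s u)
  congr 1
  rw [← BC_eq (u (D.ka s)) (ps D q s u)
    (fun τ => al D s (q D.c0 + P (u (D.ka D.c0)) τ) * be D s (q D.c1 + P (u (D.ka D.c1)) τ))
    (fun t ht => rfl)]
  apply intervalIntegral.integral_congr
  intro τ hτ
  rw [uIcc_of_le zero_le_one] at hτ
  simp only [hb τ hτ D.c0 D.hc0, hb τ hτ D.c1 D.hc1]

lemma endpointF_iff (q : Fin n → ℝ) (v : Control r) (y : Fin n → ℝ) :
    (∃ η, IsTrajectory (frF D) q v η ∧ η 1 = y) ↔ y = EF D q v := by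
  constructor
  · rintro ⟨η, h, rfl⟩
    exact trajF_unique D q v η h
  · rintro rfl
    exact ⟨_, trajF_isTrajectory D q v, trajF_unique D q v _ (trajF_isTrajectory D q v)⟩

lemma differentiableAt_xp (q : Fin n → ℝ) (c : Fin n) (u : Control r) :
    DifferentiableAt ℝ (xp D q c) u :=
  (differentiableAt_const _).add
    (PC.comp (ContinuousLinearMap.proj (R := ℝ) (φ := fun _ : Fin r => Lp ℝ 2 leb)
      (D.ka c))).differentiableAt

lemma differentiableAt_ps (q : Fin n → ℝ) (s : Fin n) (u : Control r) :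
    DifferentiableAt ℝ (ps D q s) u :=
  ((differentiableAt_Nm (al_smooth D s) _).comp u (differentiableAt_xp D q D.c0 u)).mul
    ((differentiableAt_Nm (be_smooth D s) _).comp u (differentiableAt_xp D q D.c1 u))

lemma hasFDerivAt_BCF (k : Fin r) (u : Control r) :
    HasFDerivAt (fun v : Control r => BC (v k))
      (BC.comp (ContinuousLinearMap.proj (R := ℝ) (φ := fun _ : Fin r => Lp ℝ 2 leb) k)) u :=
  (BC.comp (ContinuousLinearMap.proj (R := ℝ) (φ := fun _ : Fin r => Lp ℝ 2 leb)
    k)).hasFDerivAt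

lemma differentiableAt_EF (q : Fin n → ℝ) (u : Control r) :
    DifferentiableAt ℝ (EF D q) u := by
  rw [differentiableAt_pi]
  intro s
  exact ((hasFDerivAt_BCF (D.ka s) u).differentiableAt.clm_apply
    (differentiableAt_ps D q s u)).const_add (q s)

/-- A trajectory is singular if one of the coordinates `z_j` has vanishing derivative. -/
lemma isSingularCurve_of (q : Fin n → ℝ) (u : Control r) (s : Fin n)
    (h : (u (D.ka s) = 0 ∧ ps D q s u = 0) ∨ ∀ᶠ v in 𝓝 u, ps D q s v = 0) :
    IsSingularCurve (frF D) (trajF D q u) := by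
  have hp : HasFDerivAt (fun v => EF D q v s)
      ((ContinuousLinearMap.proj (R := ℝ) (φ := fun _ : Fin n => ℝ) s).comp
        (fderiv ℝ (EF D q) u)) u :=
    (hasFDerivAt_pi'.1 (differentiableAt_EF D q u).hasFDerivAt) s
  have h0 : HasFDerivAt (fun v => EF D q v s) (0 : Control r →L[ℝ] ℝ) u := by
    rcases h with ⟨h1, h2⟩ | h
    · have hprod := (hasFDerivAt_BCF (D.ka s) u).clm_apply
        (differentiableAt_ps D q s u).hasFDerivAt
      rw [h1, h2, map_zero, map_zero, ContinuousLinearMap.zero_comp, add_zero] at hprod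
      exact hprod.const_add (q s)
    · have : (fun v => EF D q v s) =ᶠ[𝓝 u] fun _ => q s := by
        filter_upwards [h] with v hv
        show q s + BC (v (D.ka s)) (ps D q s v) = q s
        rw [hv, map_zero, add_zero]
      exact (hasFDerivAt_const (q s) u).congr_of_eventuallyEq this
  have he := hp.unique h0
  refine ⟨u, ?_, EF D q, fderiv ℝ (EF D q) u, ?_, (differentiableAt_EF D q u).hasFDerivAt, ?_⟩
  · rw [trajF_zero]; exact trajF_isTrajectory D q u
  · rw [trajF_zero]; exact Eventually.of_forall fun v y => endpointF_iff D q v y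
  · intro hsurj
    obtain ⟨w, hw⟩ := hsurj (Pi.single s 1)
    have h5 := congrArg (fun A : Control r →L[ℝ] ℝ => A w) he
    simp only [ContinuousLinearMap.comp_apply, ContinuousLinearMap.proj_apply,
      _root_.zero_apply] at h5
    rw [hw, Pi.single_eq_same] at h5
    exact one_ne_zero h5

/-- reachability by concatenations of singular curves -/
def ReachF (p q : Fin n → ℝ) : Prop := Relation.ReflTransGen
  (fun a b => ∃ γ, IsSingularCurve (frF D) γ ∧ γ 0 = a ∧ γ 1 = b) p q

/-- the control which is the constant `σ` in the component `k` -/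
def uu (k : Fin r) (σ : ℝ) : Control r := fun k' => if k' = k then cst σ else 0

lemma uu_same (k : Fin r) (σ : ℝ) : uu k σ k = cst σ := if_pos rfl
lemma uu_other {k k' : Fin r} (σ : ℝ) (h : k' ≠ k) : uu k σ k' = 0 := if_neg h

lemma reach_uu (q : Fin n → ℝ) (k : Fin r) (σ : ℝ) (s : Fin n)
    (h : (uu k σ (D.ka s) = 0 ∧ ps D q s (uu k σ) = 0) ∨
      ∀ᶠ v in 𝓝 (uu k σ), ps D q s v = 0) : ReachF D q (EF D q (uu k σ)) :=
  Relation.ReflTransGen.single ⟨trajF D q (uu k σ), isSingularCurve_of D q _ s h,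
    trajF_zero D q _, trajF_unique D q _ _ (trajF_isTrajectory D q _)⟩

lemma BC_cst (σ : ℝ) (φ : C(I01, ℝ)) (ψ : ℝ → ℝ)
    (h : ∀ t (ht : t ∈ Icc (0 : ℝ) 1), ψ t = φ ⟨t, ht⟩) :
    BC (cst σ) φ = ∫ t in (0 : ℝ)..1, σ * ψ t := by
  rw [← BC_eq (cst σ) φ ψ h, intervalIntegral.integral_of_le zero_le_one,
    intervalIntegral.integral_of_le zero_le_one, ← integral_Icc_eq_integral_Ioc,
    ← integral_Icc_eq_integral_Ioc]
  apply integral_congr_ae
  have h1 : (cst σ : ℝ → ℝ) =ᵐ[leb] fun _ => σ := MemLp.coeFn_toLp (memLp_const σ)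
  have h2 : (cst σ : ℝ → ℝ) =ᵐ[volume.restrict (Icc (0 : ℝ) 1)] fun _ => σ := h1
  filter_upwards [h2] with t ht
  rw [ht]

/-- some `z_j` does not feel the height `y` -/
lemma exists_flat (y : ℝ) : ∃ s, D.isZ s ∧ ph (D.idx s) y = 0 := by
  rcases lt_or_ge y (3 / 2) with h | h
  · refine ⟨D.z1, D.hz1.1, ?_⟩
    rw [D.hz1.2]
    apply ph_zero
    left
    push_cast
    linarith
  · refine ⟨D.z0, D.hz0.1, ?_⟩
    rw [D.hz0.2]
    apply ph_zero
    right
    push_cast
    linarith

/-- moves in a direction different from `y` -/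
lemma move_N (q : Fin n → ℝ) (l : Fin n) (hl : ¬ D.isZ l) (hl1 : l ≠ D.c1) (v : ℝ) :
    ReachF D q (Function.update q l v) := by
  have hk : D.ka D.c1 ≠ D.ka l := fun h => hl1 (D.hnon l D.c1 hl D.hc1 h.symm)
  obtain ⟨s, hs, hy⟩ := exists_flat D (q D.c1)
  have h := reach_uu D q (D.ka l) (v - q l) s (Or.inl ⟨by
    rw [D.hZ s hs]; exact uu_other _ hk, by
    ext t
    show al D s _ * be D s (q D.c1 + P (uu (D.ka l) (v - q l) (D.ka D.c1)) t) = 0
    rw [uu_other _ hk, P_zero _ t.2, add_zero, be_Z D hs, hy, mul_zero]⟩)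
  have e : EF D q (uu (D.ka l) (v - q l)) = Function.update q l v := by
    ext s
    show q s + BC (uu (D.ka l) (v - q l) (D.ka s)) (ps D q s (uu (D.ka l) (v - q l))) = _
    by_cases hsl : s = l
    · subst hsl
      rw [Function.update_self, uu_same]
      have e1 : ps D q s (uu (D.ka s) (v - q s)) = ContinuousMap.const _ 1 := by
        ext t
        show al D s _ * be D s _ = 1
        rw [al_N D hl, be_N D hl, mul_one]
      rw [e1, BC_one, J_cst]
      ring
    · rw [Function.update_of_ne hsl]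
      have hks : D.ka s ≠ D.ka l := by
        intro hks
        by_cases hsz : D.isZ s
        · exact hk ((D.hZ s hsz).symm.trans hks)
        · exact hsl (D.hnon s l hsz hl hks)
      rw [uu_other _ hks, map_zero]
      show q s + 0 = q s
      rw [add_zero]
  rw [e] at h
  exact h

open Classical in
/-- the endpoint of a move in the direction `y` -/
lemma EF_y (q : Fin n → ℝ) (σ : ℝ) (s : Fin n) : EF D q (uu (D.ka D.c1) σ) s =
    if s = D.c1 then q D.c1 + σ else if D.isZ s then
      q s + T (q D.c0) * (Ph (D.idx s) (q D.c1 + σ) - Ph (D.idx s) (q D.c1)) else q s := by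
  show q s + BC (uu (D.ka D.c1) σ (D.ka s)) (ps D q s (uu (D.ka D.c1) σ)) = _
  by_cases hs1 : s = D.c1
  · subst hs1
    rw [if_pos rfl, uu_same]
    have e1 : ps D q D.c1 (uu (D.ka D.c1) σ) = ContinuousMap.const _ 1 := by
      ext t
      show al D D.c1 _ * be D D.c1 _ = 1
      rw [al_N D D.hc1, be_N D D.hc1, mul_one]
    rw [e1, BC_one, J_cst, one_mul]
  · rw [if_neg hs1]
    by_cases hz : D.isZ s
    · rw [if_pos hz, D.hZ s hz, uu_same]
      congr 1
      rw [BC_cst σ (ps D q s (uu (D.ka D.c1) σ))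
        (fun t => T (q D.c0) * ph (D.idx s) (q D.c1 + σ * t)) (fun t ht => by
          show _ = al D s (q D.c0 + P (uu (D.ka D.c1) σ (D.ka D.c0)) t) *
            be D s (q D.c1 + P (uu (D.ka D.c1) σ (D.ka D.c1)) t)
          rw [uu_other _ D.hk01, uu_same, P_zero _ ht, P_cst _ ht, add_zero, al_Z D hz,
            be_Z D hz])]
      have hder : ∀ t ∈ uIcc (0 : ℝ) 1, HasDerivAt
          (fun t => T (q D.c0) * Ph (D.idx s) (q D.c1 + σ * t))
          (σ * (T (q D.c0) * ph (D.idx s) (q D.c1 + σ * t))) t := by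
        intro t _
        have h1 : HasDerivAt (fun t : ℝ => q D.c1 + σ * t) σ t := by
          simpa using ((hasDerivAt_id t).const_mul σ).const_add (q D.c1)
        have h2 := ((hasDerivAt_Ph (D.idx s) (q D.c1 + σ * t)).comp t h1).const_mul (T (q D.c0))
        rw [show σ * (T (q D.c0) * ph (D.idx s) (q D.c1 + σ * t)) =
          T (q D.c0) * (ph (D.idx s) (q D.c1 + σ * t) * σ) by ring]
        exact h2
      have hint : IntervalIntegrable
          (fun t => σ * (T (q D.c0) * ph (D.idx s) (q D.c1 + σ * t))) volume 0 1 := by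
        apply Continuous.intervalIntegrable
        have := (ph_smooth (D.idx s)).continuous
        fun_prop
      rw [intervalIntegral.integral_eq_sub_of_hasDerivAt hder hint]
      simp only [mul_one, mul_zero, add_zero]
      ring
    · rw [if_neg hz]
      have hks : D.ka s ≠ D.ka D.c1 := fun h => hs1 (D.hnon s D.c1 hz D.hc1 h)
      rw [uu_other _ hks, map_zero]
      show q s + 0 = q s
      rw [add_zero]

end

end Pool.Agent.Y391.ST
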