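import Pool.Agent.Y391.ST.Sym

/-!
# Examples of every rank `r ≥ 4` in every dimension `n ≥ r + 2`
-/

set_option autoImplicit false

namespace Pool.Agent.Y391.ST

open Set MeasureTheory Filter Topology
open scoped ContDiff Manifold

noncomputable section

/-- the control of the coordinate `s` -/
def kaN (a s : ℕ) : ℕ :=
  if s = 0 then 0 else if s ≤ 2 then 1 else if s = 3 then 2 else if s < 5 + a then 3 else s - a - 1

/-- the base of the coordinate `s` -/
def bN (s : ℕ) : ℕ := if s ≤ 2 then 0 else 3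

/-- the exponent of the coordinate `s` -/
def mN (a s : ℕ) : ℕ := if s = 2 then 1 else if 5 ≤ s ∧ s < 5 + a then s - 4 else 0

lemma kaN_zero (a : ℕ) : kaN a 0 = 0 := by simp [kaN]
lemma kaN_one (a : ℕ) : kaN a 1 = 1 := by simp [kaN]
lemma kaN_two (a : ℕ) : kaN a 2 = 1 := by simp [kaN]
lemma kaN_three (a : ℕ) : kaN a 3 = 2 := by simp [kaN]
lemma kaN_mid (a s : ℕ) (h4 : 4 ≤ s) (h : s < 5 + a) : kaN a s = 3 := by
  unfold kaN
  rw [if_neg (by omega), if_neg (by omega), if_neg (by omega), if_pos h]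
lemma kaN_big (a s : ℕ) (h : 5 + a ≤ s) : kaN a s = s - a - 1 := by
  unfold kaN
  rw [if_neg (by omega), if_neg (by omega), if_neg (by omega), if_neg (by omega)]
lemma mN_two (a : ℕ) : mN a 2 = 1 := by simp [mN]
lemma mN_zero (a : ℕ) : mN a 0 = 0 := by simp [mN]
lemma mN_one (a : ℕ) : mN a 1 = 0 := by simp [mN]
lemma mN_three (a : ℕ) : mN a 3 = 0 := by simp [mN]
lemma mN_four (a : ℕ) : mN a 4 = 0 := by simp [mN]
lemma mN_mid (a s : ℕ) (h4 : 5 ≤ s) (h : s < 5 + a) : mN a s = s - 4 := by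
  unfold mN
  rw [if_neg (by omega), if_pos ⟨h4, h⟩]
lemma mN_big (a s : ℕ) (h : 5 + a ≤ s) : mN a s = 0 := by
  unfold mN
  rw [if_neg (by omega), if_neg (by omega)]
lemma bN_small (s : ℕ) (h : s ≤ 2) : bN s = 0 := if_pos h
lemma bN_large (s : ℕ) (h : 3 ≤ s) : bN s = 3 := if_neg (by omega)

/-- the cases for a coordinate -/
lemma cases6 (a s : ℕ) : (s = 0 ∧ kaN a s = 0 ∧ mN a s = 0 ∧ bN s = 0) ∨
    (s = 1 ∧ kaN a s = 1 ∧ mN a s = 0 ∧ bN s = 0) ∨
    (s = 2 ∧ kaN a s = 1 ∧ mN a s = 1 ∧ bN s = 0) ∨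
    (s = 3 ∧ kaN a s = 2 ∧ mN a s = 0 ∧ bN s = 3) ∨
    (s = 4 ∧ kaN a s = 3 ∧ mN a s = 0 ∧ bN s = 3) ∨
    (5 ≤ s ∧ s < 5 + a ∧ kaN a s = 3 ∧ mN a s = s - 4 ∧ bN s = 3) ∨
    (5 + a ≤ s ∧ kaN a s = s - a - 1 ∧ mN a s = 0 ∧ bN s = 3) := by
  rcases Nat.lt_or_ge s 5 with h | h
  · have h' : s = 0 ∨ s = 1 ∨ s = 2 ∨ s = 3 ∨ s = 4 := by omega
    rcases h' with rfl | rfl | rfl | rfl | rfl
    · exact Or.inl ⟨rfl, kaN_zero a, mN_zero a, rfl⟩
    · exact Or.inr (Or.inl ⟨rfl, kaN_one a, mN_one a, rfl⟩)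
    · exact Or.inr (Or.inr (Or.inl ⟨rfl, kaN_two a, mN_two a, rfl⟩))
    · exact Or.inr (Or.inr (Or.inr (Or.inl ⟨rfl, kaN_three a, mN_three a, rfl⟩)))
    · exact Or.inr (Or.inr (Or.inr (Or.inr (Or.inl
        ⟨rfl, kaN_mid a 4 (by omega) (by omega), mN_four a, rfl⟩))))
  · rcases Nat.lt_or_ge s (5 + a) with h1 | h1
    · exact Or.inr (Or.inr (Or.inr (Or.inr (Or.inr (Or.inl ⟨h, h1, kaN_mid a s (by omega) h1,
        mN_mid a s h h1, bN_large s (by omega)⟩)))))
    · exact Or.inr (Or.inr (Or.inr (Or.inr (Or.inr (Or.inr ⟨h1, kaN_big a s h1,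
        mN_big a s h1, bN_large s (by omega)⟩)))))

lemma kaN_lt (a c s : ℕ) (hs : s < 5 + a + c) : kaN a s < 4 + c := by
  have := cases6 a s
  omega

lemma mbN (a s : ℕ) : mN a (bN s) = 0 := by
  have h : bN s = 0 ∨ bN s = 3 := by
    rcases Nat.lt_or_ge s 3 with h | h
    · exact Or.inl (bN_small s (by omega))
    · exact Or.inr (bN_large s h)
  rcases h with h | h
  · rw [h, mN_zero]
  · rw [h, mN_three]

lemma indN (a c k : ℕ) (hk : k < 4 + c) :
    ∃ s, s < 5 + a + c ∧ kaN a s = k ∧ mN a s = 0 := by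
  rcases Nat.lt_or_ge k 4 with h | h
  · have h' : k = 0 ∨ k = 1 ∨ k = 2 ∨ k = 3 := by omega
    rcases h' with h' | h' | h' | h'
    · exact ⟨0, by omega, by rw [kaN_zero, h'], mN_zero a⟩
    · exact ⟨1, by omega, by rw [kaN_one, h'], mN_one a⟩
    · exact ⟨3, by omega, by rw [kaN_three, h'], mN_three a⟩
    · exact ⟨4, by omega, by rw [kaN_mid a 4 (by omega) (by omega), h'], mN_four a⟩
  · exact ⟨k + a + 1, by omega, by rw [kaN_big a _ (by omega)]; omega, mN_big a _ (by omega)⟩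

lemma injN (a s s' : ℕ) (hk : kaN a s = kaN a s') (hm : mN a s = mN a s') :
    s = s' := by
  have h := cases6 a s
  have h' := cases6 a s'
  omega

lemma baseN (a s : ℕ) (hm : mN a s ≠ 0) : kaN a (bN s) ≠ kaN a s := by
  have h := cases6 a s
  have h0 := kaN_zero a
  have h3 := kaN_three a
  have hb : (bN s = 0 ∧ kaN a s = 1) ∨ (bN s = 3 ∧ kaN a s = 3) := by omega
  rcases hb with ⟨hb, hk⟩ | ⟨hb, hk⟩
  · rw [hb]; omega
  · rw [hb]; omega

lemma singN (a s s' : ℕ) (hk : kaN a s = kaN a (bN s')) : s = bN s' := by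
  have h := cases6 a s
  have h0 := kaN_zero a
  have h3 := kaN_three a
  have hb : bN s' = 0 ∨ bN s' = 3 := by
    have := cases6 a s'
    omega
  rcases hb with hb | hb
  · rw [hb] at hk ⊢; omega
  · rw [hb] at hk ⊢; omega

lemma sameN (a s s' : ℕ) (hk : kaN a s = kaN a s') : bN s = bN s' := by
  have h := cases6 a s
  have h' := cases6 a s'
  omega

lemma bN_lt (a c s : ℕ) : bN s < 5 + a + c := by
  have := cases6 a s
  omega

/-- The datum: `dz = x dy` on the coordinates `0, 1, 2`, then `dz_j = x' ^ j dy'`, `1 ≤ j ≤ a`, on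
the coordinates `3, 4, 5, …, 4 + a`, and `c` free coordinates. -/
def dat (a c : ℕ) (ha : 1 ≤ a) : Datum (4 + c) (5 + a + c) where
  ka s := ⟨kaN a s, kaN_lt a c s s.2⟩
  b s := ⟨bN s, bN_lt a c s⟩
  m s := mN a s
  mb s := mbN a s
  hind k := by
    obtain ⟨s, hs, h1, h2⟩ := indN a c k k.2
    exact ⟨⟨s, hs⟩, Fin.ext h1, h2⟩
  hinj s s' h1 h2 := Fin.ext (injN a s s' (congrArg Fin.val h1) h2)
  hbase s h := fun h' => baseN a s h (congrArg Fin.val h')
  hsing s s' _ h' := Fin.ext (singN a s s' (congrArg Fin.val h'))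
  hsame s s' h _ _ := Fin.ext (sameN a s s' (congrArg Fin.val h))
  hfree k := by
    rcases Nat.lt_or_ge (k : ℕ) 2 with h | h
    · refine ⟨⟨5, by omega⟩, ?_, ?_, ?_⟩
      · show mN a 5 ≠ 0
        rw [mN_mid a 5 (by omega) (by omega)]
        omega
      · intro h'
        have h2 : kaN a 5 = (k : ℕ) := congrArg Fin.val h'
        rw [kaN_mid a 5 (by omega) (by omega)] at h2
        omega
      · intro h'
        have h2 : kaN a (bN 5) = (k : ℕ) := congrArg Fin.val h'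
        rw [bN_large 5 (by omega), kaN_three] at h2
        omega
    · refine ⟨⟨2, by omega⟩, ?_, ?_, ?_⟩
      · show mN a 2 ≠ 0
        rw [mN_two]
        exact one_ne_zero
      · intro h'
        have h2 : kaN a 2 = (k : ℕ) := congrArg Fin.val h'
        rw [kaN_two] at h2
        omega
      · intro h'
        have h2 : kaN a (bN 2) = (k : ℕ) := congrArg Fin.val h'
        rw [bN_small 2 (by omega), kaN_zero] at h2
        omega

lemma block (a c : ℕ) (ha : 1 ≤ a) : Block (dat a c ha) ⟨0, by omega⟩ ⟨1, by omega⟩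
    ⟨2, by omega⟩ where
  h01 := by simp
  h02 := by simp
  h12 := by simp
  m0 := mN_zero a
  m1 := mN_one a
  m2 := mN_two a
  b2 := Fin.ext (bN_small 2 (by omega))
  k12 := Fin.ext ((kaN_one a).trans (kaN_two a).symm)
  k0 s h := by
    have h2 : kaN a s = kaN a 0 := congrArg Fin.val h
    apply Fin.ext
    show (s : ℕ) = 0
    rw [kaN_zero] at h2
    have := cases6 a s
    omega
  k1 s h := by
    have h2 : kaN a s = kaN a 1 := congrArg Fin.val h
    rw [kaN_one] at h2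
    have h3 : (s : ℕ) = 1 ∨ (s : ℕ) = 2 := by
      have := cases6 a s
      omega
    exact h3.imp (fun h => Fin.ext h) (fun h => Fin.ext h)
  hb s hm h2 := by
    have h3 : (s : ℕ) ≠ 2 := fun h => h2 (Fin.ext h)
    have hm' : mN a s ≠ 0 := hm
    have h4 : bN s = 3 := by
      have := cases6 a s
      omega
    refine ⟨fun h => ?_, fun h => ?_, fun h => ?_⟩
    · have h5 : bN s = 0 := congrArg Fin.val h
      omega
    · have h5 : bN s = 1 := congrArg Fin.val h
      omega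
    · have h5 : bN s = 2 := congrArg Fin.val h
      omega

/-- **Singular transitive distributions with infinite-dimensional symmetry groups**, for all ranks
`r ≥ 4` and all dimensions `n ≥ r + 2`. -/
theorem main (r n : ℕ) (hr : 4 ≤ r) (hn : r + 2 ≤ n) :
    ∃ X : Fin r → (Fin n → ℝ) → (Fin n → ℝ),
      (∀ i, ContDiff ℝ ∞ (X i)) ∧ (∀ q, LinearIndependent ℝ (fun i => X i q)) ∧
        SingularTransitive X ∧ ¬ IsFiniteDimLieGroup (symmetryGroup (distribution X)) := by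
  obtain ⟨c, rfl⟩ : ∃ c, r = 4 + c := ⟨r - 4, by omega⟩
  obtain ⟨a, rfl⟩ : ∃ a, n = 5 + a + c := ⟨n - 5 - c, by omega⟩
  have ha : 1 ≤ a := by omega
  exact ⟨fr (dat a c ha), fr_smooth _, fr_linearIndependent _, singularTransitive_fr _,
    not_isFiniteDimLieGroup (block a c ha)⟩

end

end Pool.Agent.Y391.ST
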