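import Pool.Agent.Y391.ST.Pair

/-!
# Monomial frames: endpoint map, singular curves, singular transitivity
-/

set_option autoImplicit false

namespace Pool.Agent.Y391.ST

open Set MeasureTheory Filter Topology
open scoped ContDiff Manifold

noncomputable section

/-- The data of a monomial frame on `ℝⁿ` with `r` fields: the coordinate `s` is driven by the
control `ka s`, with the factor `(q (b s)) ^ (m s)`. -/
structure Datum (r n : ℕ) where
  ka : Fin n → Fin r
  b : Fin n → Fin n
  m : Fin n → ℕ
  mb : ∀ s, m (b s) = 0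
  hind : ∀ k, ∃ s, ka s = k ∧ m s = 0
  hinj : ∀ s s', ka s = ka s' → m s = m s' → s = s'
  hbase : ∀ s, m s ≠ 0 → ka (b s) ≠ ka s
  hsing : ∀ s s', m s' ≠ 0 → ka s = ka (b s') → s = b s'
  hsame : ∀ s s', ka s = ka s' → m s ≠ 0 → m s' ≠ 0 → b s = b s'
  hfree : ∀ k, ∃ s, m s ≠ 0 ∧ ka s ≠ k ∧ ka (b s) ≠ k

variable {r n : ℕ} (D : Datum r n)

/-- the frame -/
def fr (k : Fin r) (q : Fin n → ℝ) : Fin n → ℝ :=
  fun s => if D.ka s = k then q (D.b s) ^ D.m s else 0

lemma sum_fr (a : Fin r → ℝ) (q : Fin n → ℝ) (s : Fin n) :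
    ∑ k, a k * fr D k q s = a (D.ka s) * q (D.b s) ^ D.m s := by
  unfold fr
  simp

lemma fr_smooth (k : Fin r) : ContDiff ℝ ∞ (fr D k) := by
  rw [contDiff_pi]
  intro s
  unfold fr
  split_ifs
  · exact (contDiff_apply ℝ ℝ (D.b s)).pow _
  · exact contDiff_const

lemma fr_linearIndependent (q : Fin n → ℝ) : LinearIndependent ℝ (fun k => fr D k q) := by
  rw [Fintype.linearIndependent_iff]
  intro g hg k
  obtain ⟨s, hs, hm⟩ := D.hind k
  have h := sum_fr D g q s
  have h2 := congrFun hg s
  rw [Finset.sum_apply] at h2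
  simp only [Pi.smul_apply, smul_eq_mul, Pi.zero_apply] at h2
  rw [h2, hm, pow_zero, mul_one, hs] at h
  exact h.symm

/-- coordinates of the integral equation -/
lemma integral_fr (u : Control r) {γ : ℝ → (Fin n → ℝ)} (hγ : ContinuousOn γ (Icc 0 1))
    {t : ℝ} (ht : t ∈ Icc (0 : ℝ) 1) (s : Fin n) :
    (∫ τ in (0 : ℝ)..t, ∑ k, u k τ • fr D k (γ τ)) s =
      ∫ τ in (0 : ℝ)..t, u (D.ka s) τ * γ τ (D.b s) ^ D.m s := by
  have hint : IntervalIntegrable (fun τ => ∑ k, u k τ • fr D k (γ τ)) volume 0 t := by
    have h1 : ∀ i ∈ Finset.univ, IntervalIntegrable (fun τ => u i τ • fr D i (γ τ))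
        volume 0 t := by
      intro i _
      apply (intervalIntegrable_Lp (u i) ht).smul_continuousOn
      rw [uIcc_of_le ht.1]
      exact (fr_smooth D i).continuous.comp_continuousOn
        (hγ.mono (Icc_subset_Icc le_rfl ht.2))
    have h2 := IntervalIntegrable.sum _ h1
    have e : (fun τ => ∑ i, u i τ • fr D i (γ τ)) = ∑ i, fun τ => u i τ • fr D i (γ τ) := by
      funext τ
      rw [Finset.sum_apply]
    rw [e]
    exact h2
  have h3 := (ContinuousLinearMap.proj (R := ℝ) (φ := fun _ : Fin n => ℝ)
    s).intervalIntegral_comp_comm hint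
  simp only [ContinuousLinearMap.proj_apply] at h3
  rw [← h3]
  congr 1
  ext1 τ
  rw [Finset.sum_apply]
  exact sum_fr D (fun i => u i τ) (γ τ) s

/-- the trajectories -/
def traj (q : Fin n → ℝ) (u : Control r) (t : ℝ) : Fin n → ℝ := fun s =>
  q s + ∫ τ in (0 : ℝ)..t,
    u (D.ka s) τ * (q (D.b s) + P (u (D.ka (D.b s))) τ) ^ D.m s

lemma traj_base (q : Fin n → ℝ) (u : Control r) (t : ℝ) (s : Fin n) :
    traj D q u t (D.b s) = q (D.b s) + P (u (D.ka (D.b s))) t := by
  unfold traj
  rw [D.mb s]
  simp only [pow_zero, mul_one]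
  rfl

lemma traj_zero (q : Fin n → ℝ) (u : Control r) : traj D q u 0 = q := by
  ext s
  simp [traj]

lemma traj_isTrajectory (q : Fin n → ℝ) (u : Control r) :
    IsTrajectory (fr D) q u (traj D q u) := by
  have hcont : ContinuousOn (traj D q u) (Icc 0 1) := by
    rw [continuousOn_pi]
    intro s
    exact continuousOn_const.add (continuousOn_prim _
      ((continuousOn_const.add (continuousOn_P _)).pow _))
  refine ⟨hcont, ?_⟩
  intro t ht
  ext s
  rw [Pi.add_apply, integral_fr D u hcont ht s]
  simp only [traj_base]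
  rfl

/-- the power of the base coordinate, as a continuous function of time -/
def psi (q : Fin n → ℝ) (s : Fin n) (u : Control r) : C(I01, ℝ) :=
  (ContinuousMap.const _ (q (D.b s)) + PC (u (D.ka (D.b s)))) ^ D.m s

/-- the endpoint map -/
def E (q : Fin n → ℝ) (u : Control r) : Fin n → ℝ := fun s =>
  q s + BC (u (D.ka s)) (psi D q s u)

lemma traj_unique (q : Fin n → ℝ) (u : Control r) (η : ℝ → (Fin n → ℝ))
    (h : IsTrajectory (fr D) q u η) : η 1 = E D q u := by
  have h2 : ∀ t ∈ Icc (0:ℝ) 1, ∀ s, η t s = q s + ∫ τ in (0 : ℝ)..t,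
      u (D.ka s) τ * η τ (D.b s) ^ D.m s := by
    intro t ht s
    rw [← integral_fr D u h.1 ht s, ← Pi.add_apply, ← h.2 t ht]
  have hb : ∀ t ∈ Icc (0:ℝ) 1, ∀ s, η t (D.b s) = q (D.b s) + P (u (D.ka (D.b s))) t := by
    intro t ht s
    rw [h2 t ht (D.b s), D.mb s]
    simp only [pow_zero, mul_one]
    rfl
  ext s
  rw [h2 1 ⟨zero_le_one, le_rfl⟩ s]
  show _ = q s + BC (u (D.ka s)) (psi D q s u)
  congr 1
  rw [← BC_eq (u (D.ka s)) (psi D q s u)
    (fun τ => (q (D.b s) + P (u (D.ka (D.b s))) τ) ^ D.m s) (fun t ht => rfl)]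
  apply intervalIntegral.integral_congr
  intro τ hτ
  rw [uIcc_of_le zero_le_one] at hτ
  simp only [hb τ hτ s]

lemma endpoint_iff (q : Fin n → ℝ) (v : Control r) (y : Fin n → ℝ) :
    (∃ η, IsTrajectory (fr D) q v η ∧ η 1 = y) ↔ y = E D q v := by
  constructor
  · rintro ⟨η, h, rfl⟩
    exact traj_unique D q v η h
  · rintro rfl
    exact ⟨_, traj_isTrajectory D q v, traj_unique D q v _ (traj_isTrajectory D q v)⟩

lemma differentiableAt_psi (q : Fin n → ℝ) (s : Fin n) (u : Control r) :
    DifferentiableAt ℝ (psi D q s) u := by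
  have h1 : DifferentiableAt ℝ (fun v : Control r => PC (v (D.ka (D.b s)))) u :=
    (PC.comp (ContinuousLinearMap.proj (R := ℝ) (φ := fun _ : Fin r => Lp ℝ 2 leb)
      (D.ka (D.b s)))).differentiableAt
  exact ((differentiableAt_const _).add h1).pow _

lemma hasFDerivAt_BC (k : Fin r) (u : Control r) :
    HasFDerivAt (fun v : Control r => BC (v k))
      (BC.comp (ContinuousLinearMap.proj (R := ℝ) (φ := fun _ : Fin r => Lp ℝ 2 leb) k)) u :=
  (BC.comp (ContinuousLinearMap.proj (R := ℝ) (φ := fun _ : Fin r => Lp ℝ 2 leb)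
    k)).hasFDerivAt

lemma differentiableAt_E (q : Fin n → ℝ) (u : Control r) : DifferentiableAt ℝ (E D q) u := by
  rw [differentiableAt_pi]
  intro s
  exact ((hasFDerivAt_BC (D.ka s) u).differentiableAt.clm_apply
    (differentiableAt_psi D q s u)).const_add (q s)

lemma rel (q : Fin n → ℝ) (u : Control r) (s1 s2 : Fin n) (hk : D.ka s1 = D.ka s2)
    (h1 : D.m s1 = 0) (hu : u (D.ka s2) = 0) (hu' : u (D.ka (D.b s2)) = 0) (h : Control r) :
    fderiv ℝ (E D q) u h s2 = q (D.b s2) ^ D.m s2 * fderiv ℝ (E D q) u h s1 := by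
  set c : ℝ := q (D.b s2) ^ D.m s2 with hc
  have hE := (differentiableAt_E D q u).hasFDerivAt
  have hp : ∀ s, HasFDerivAt (fun v => E D q v s)
      ((ContinuousLinearMap.proj (R := ℝ) (φ := fun _ : Fin n => ℝ) s).comp
        (fderiv ℝ (E D q) u)) u := fun s => (hasFDerivAt_pi'.1 hE) s
  have hG1 : HasFDerivAt (fun v => E D q v s2 - c * E D q v s1)
      ((ContinuousLinearMap.proj (R := ℝ) (φ := fun _ : Fin n => ℝ) s2).comp
        (fderiv ℝ (E D q) u) - c • (ContinuousLinearMap.proj (R := ℝ)
          (φ := fun _ : Fin n => ℝ) s1).comp (fderiv ℝ (E D q) u)) u :=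
    (hp s2).sub ((hp s1).const_mul c)
  have hψ : HasFDerivAt (fun v => psi D q s2 v - ContinuousMap.const _ c)
      (fderiv ℝ (psi D q s2) u) u :=
    (differentiableAt_psi D q s2 u).hasFDerivAt.sub_const _
  have hprod := (hasFDerivAt_BC (D.ka s2) u).clm_apply hψ
  have hψ0 : psi D q s2 u - ContinuousMap.const _ c = 0 := by
    unfold psi
    rw [hu', map_zero, add_zero]
    ext t
    simp [hc]
  rw [hψ0, hu, map_zero, map_zero, ContinuousLinearMap.zero_comp, add_zero] at hprod
  have hG2 : HasFDerivAt (fun v => E D q v s2 - c * E D q v s1) (0 : Control r →L[ℝ] ℝ) u := by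
    have h3 := hprod.const_add (q s2 - c * q s1)
    have e1 : (fun v => E D q v s2 - c * E D q v s1) = fun v =>
        (q s2 - c * q s1) + BC (v (D.ka s2)) (psi D q s2 v - ContinuousMap.const _ c) := by
      funext v
      have e2 : BC (v (D.ka s1)) (psi D q s1 v) = J (v (D.ka s2)) := by
        have e3 : psi D q s1 v = ContinuousMap.const _ 1 := by
          unfold psi
          rw [h1, pow_zero]
          rfl
        rw [e3, BC_one, one_mul, hk]
      show (q s2 + BC (v (D.ka s2)) (psi D q s2 v)) - c * (q s1 + BC (v (D.ka s1)) (psi D q s1 v))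
        = _
      rw [e2, map_sub, BC_one]
      ring
    rw [e1]
    exact h3
  have h4 := hG1.unique hG2
  have h5 := congrArg (fun A : Control r →L[ℝ] ℝ => A h) h4
  simp only [_root_.sub_apply, _root_.smul_apply,
    ContinuousLinearMap.comp_apply, ContinuousLinearMap.proj_apply, smul_eq_mul,
    _root_.zero_apply] at h5
  linarith

/-- Trajectories along which one block is at rest are singular curves. -/
lemma isSingularCurve_traj (q : Fin n → ℝ) (u : Control r) (s2 : Fin n) (h2 : D.m s2 ≠ 0)
    (hu : u (D.ka s2) = 0) (hu' : u (D.ka (D.b s2)) = 0) :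
    IsSingularCurve (fr D) (traj D q u) := by
  refine ⟨u, ?_, E D q, fderiv ℝ (E D q) u, ?_, (differentiableAt_E D q u).hasFDerivAt, ?_⟩
  · rw [traj_zero]; exact traj_isTrajectory D q u
  · rw [traj_zero]; exact Eventually.of_forall fun v y => endpoint_iff D q v y
  · intro hsurj
    obtain ⟨s1, hs1, hm1⟩ := D.hind (D.ka s2)
    have hne : s1 ≠ s2 := by
      rintro rfl
      exact h2 hm1
    obtain ⟨h, hh⟩ := hsurj (Pi.single s2 1)
    have e := rel D q u s1 s2 hs1 hm1 hu hu' h
    rw [hh, Pi.single_eq_same, Pi.single_eq_of_ne hne, mul_zero] at e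
    exact one_ne_zero e

/-- one singular curve from `a` to `b` -/
def Step (a b : Fin n → ℝ) : Prop := ∃ γ, IsSingularCurve (fr D) γ ∧ γ 0 = a ∧ γ 1 = b

/-- the flow of the field `k` -/
def mv (k : Fin r) (σ : ℝ) (q : Fin n → ℝ) : Fin n → ℝ :=
  fun s => q s + if D.ka s = k then σ * q (D.b s) ^ D.m s else 0

lemma step_mv (k : Fin r) (σ : ℝ) (q : Fin n → ℝ) : Step D q (mv D k σ q) := by
  set u : Control r := fun k' => if k' = k then cst σ else 0 with hu
  obtain ⟨s2, h2, h3, h4⟩ := D.hfree k
  refine ⟨traj D q u, isSingularCurve_traj D q u s2 h2 (by simp [hu, h3]) (by simp [hu, h4]),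
    traj_zero D q u, ?_⟩
  rw [traj_unique D q u _ (traj_isTrajectory D q u)]
  ext s
  show q s + BC (u (D.ka s)) (psi D q s u) = q s + _
  congr 1
  by_cases hk : D.ka s = k
  · rw [if_pos hk]
    have e1 : psi D q s u = ContinuousMap.const _ (q (D.b s) ^ D.m s) := by
      unfold psi
      by_cases hm : D.m s = 0
      · rw [hm, pow_zero, pow_zero]; rfl
      · have h5 : u (D.ka (D.b s)) = 0 := by
          have := D.hbase s hm
          rw [hk] at this
          simp [hu, this]
        rw [h5, map_zero, add_zero]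
        ext t
        simp
    have e2 : u (D.ka s) = cst σ := by simp [hu, hk]
    rw [e1, e2, BC_one, J_cst, mul_comm]
  · rw [if_neg hk]
    have e2 : u (D.ka s) = 0 := by simp [hu, hk]
    rw [e2, map_zero]
    rfl

/-- reachability by concatenations of singular curves -/
def Reach (p q : Fin n → ℝ) : Prop := Relation.ReflTransGen (Step D) p q

lemma fiber (s' : Fin n) (hs' : D.m s' ≠ 0) (x σ : ℝ) (p : Fin n → ℝ) :
    Reach D p (fun s => p s + if D.ka s = D.ka s' then σ * x ^ D.m s else 0) := by
  set s0 := D.b s' with hs0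
  have hm0 : D.m s0 = 0 := D.mb s'
  have hk0 : D.ka s0 ≠ D.ka s' := D.hbase s' hs'
  have base : ∀ (y : ℝ) (w : Fin n → ℝ), Reach D w (fun s => if s = s0 then y else w s) := by
    intro y w
    have h := Relation.ReflTransGen.single (step_mv D (D.ka s0) (y - w s0) w)
    have e : mv D (D.ka s0) (y - w s0) w = fun s => if s = s0 then y else w s := by
      funext s
      unfold mv
      by_cases hs : s = s0
      · rw [if_pos hs, hs, if_pos rfl, hm0, pow_zero, mul_one]
        ring
      · rw [if_neg hs, if_neg, add_zero]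
        intro hk
        exact hs (D.hsing s s' hs' hk)
    rw [e] at h
    exact h
  have h1 := base x p
  have h2 := Relation.ReflTransGen.single
    (step_mv D (D.ka s') σ (fun s => if s = s0 then x else p s))
  have h3 := base (p s0) (mv D (D.ka s') σ (fun s => if s = s0 then x else p s))
  have e : (fun s => if s = s0 then p s0 else
      (mv D (D.ka s') σ (fun s => if s = s0 then x else p s)) s) =
      fun s => p s + if D.ka s = D.ka s' then σ * x ^ D.m s else 0 := by
    funext s
    by_cases hs : s = s0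
    · rw [if_pos hs, hs, if_neg hk0, add_zero]
    · rw [if_neg hs]
      show ((if s = s0 then x else p s) + if D.ka s = D.ka s' then
        σ * (if D.b s = s0 then x else p (D.b s)) ^ D.m s else 0) = _
      rw [if_neg hs]
      congr 1
      by_cases hk : D.ka s = D.ka s'
      · rw [if_pos hk, if_pos hk]
        by_cases hm : D.m s = 0
        · rw [hm, pow_zero, pow_zero]
        · have hb : D.b s = s0 := D.hsame s s' hk hm hs'
          rw [hb, if_pos rfl]
      · rw [if_neg hk, if_neg hk]
  rw [e] at h3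
  exact (h1.trans h2).trans h3

lemma fibers (s' : Fin n) (hs' : D.m s' ≠ 0) {N : ℕ} (x σ : Fin N → ℝ) (p : Fin n → ℝ)
    (S : Finset (Fin N)) :
    Reach D p (fun s => p s + if D.ka s = D.ka s' then ∑ i ∈ S, σ i * x i ^ D.m s else 0) := by
  classical
  induction S using Finset.induction_on with
  | empty =>
    have : (fun s => p s + if D.ka s = D.ka s' then ∑ i ∈ (∅ : Finset (Fin N)),
        σ i * x i ^ D.m s else 0) = p := by
      funext s
      simp
    rw [this]
    exact Relation.ReflTransGen.refl
  | insert i S hi ih =>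
    have h := fiber D s' hs' (x i) (σ i)
      (fun s => p s + if D.ka s = D.ka s' then ∑ i ∈ S, σ i * x i ^ D.m s else 0)
    have e : (fun s => (p s + if D.ka s = D.ka s' then ∑ i ∈ S, σ i * x i ^ D.m s else 0) +
        if D.ka s = D.ka s' then σ i * x i ^ D.m s else 0) =
        fun s => p s + if D.ka s = D.ka s' then ∑ i ∈ insert i S, σ i * x i ^ D.m s else 0 := by
      funext s
      by_cases hk : D.ka s = D.ka s'
      · rw [if_pos hk, if_pos hk, if_pos hk, Finset.sum_insert hi]
        ring
      · rw [if_neg hk, if_neg hk, if_neg hk]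
        ring
    rw [e] at h
    exact ih.trans h

lemma setk (p q : Fin n → ℝ) (k : Fin r) :
    Reach D p (fun s => if D.ka s = k then q s else p s) := by
  classical
  by_cases hex : ∃ s', D.ka s' = k ∧ D.m s' ≠ 0
  · obtain ⟨s', hk', hs'⟩ := hex
    set N := Finset.univ.sup D.m + 1 with hN
    set x : Fin N → ℝ := fun i => (i : ℕ) with hx
    have hxinj : Function.Injective x := by
      intro i j hij
      have : ((i : ℕ) : ℝ) = ((j : ℕ) : ℝ) := hij
      exact Fin.ext (by exact_mod_cast this)
    set V := Matrix.vandermonde x with hV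
    have hdet : IsUnit V.det := (Matrix.det_vandermonde_ne_zero_iff.2 hxinj).isUnit
    set δ : Fin N → ℝ := fun j =>
      ∑ s, if D.ka s = k ∧ D.m s = (j : ℕ) then q s - p s else 0 with hδ
    set σ : Fin N → ℝ := Matrix.vecMul δ V⁻¹ with hσ
    have hsol : Matrix.vecMul σ V = δ := by
      rw [hσ, Matrix.vecMul_vecMul, Matrix.nonsing_inv_mul _ hdet, Matrix.vecMul_one]
    have hval : ∀ s, D.ka s = k → ∑ i, σ i * x i ^ D.m s = q s - p s := by
      intro s hs
      have hlt : D.m s < N := by
        have : D.m s ≤ Finset.univ.sup D.m := Finset.le_sup (Finset.mem_univ s)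
        omega
      have h1 := congrFun hsol ⟨D.m s, hlt⟩
      have h2 : δ ⟨D.m s, hlt⟩ = q s - p s := by
        show (∑ s₁, if D.ka s₁ = k ∧ D.m s₁ = D.m s then q s₁ - p s₁ else 0) = _
        rw [Finset.sum_eq_single s]
        · rw [if_pos ⟨hs, rfl⟩]
        · intro s₁ _ hne
          rw [if_neg]
          rintro ⟨h3, h4⟩
          exact hne (D.hinj s₁ s (h3.trans hs.symm) h4)
        · intro h
          exact absurd (Finset.mem_univ s) h
      rw [h2] at h1
      rw [← h1]
      rfl
    have h := fibers D s' hs' x σ p Finset.univ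
    have e : (fun s => p s + if D.ka s = D.ka s' then ∑ i, σ i * x i ^ D.m s else 0) =
        fun s => if D.ka s = k then q s else p s := by
      funext s
      rw [hk']
      by_cases hk : D.ka s = k
      · rw [if_pos hk, if_pos hk, hval s hk]
        ring
      · rw [if_neg hk, if_neg hk, add_zero]
    rw [e] at h
    exact h
  · push Not at hex
    obtain ⟨s0, hs0, hm0⟩ := D.hind k
    have h := Relation.ReflTransGen.single (step_mv D k (q s0 - p s0) p)
    have e : mv D k (q s0 - p s0) p = fun s => if D.ka s = k then q s else p s := by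
      funext s
      unfold mv
      by_cases hk : D.ka s = k
      · have hs : s = s0 := D.hinj s s0 (hk.trans hs0.symm) ((hex s hk).trans hm0.symm)
        rw [if_pos hk, if_pos hk, hs, hm0, pow_zero, mul_one]
        ring
      · rw [if_neg hk, if_neg hk, add_zero]
    rw [e] at h
    exact h

lemma setS (p q : Fin n → ℝ) (S : Finset (Fin r)) :
    Reach D p (fun s => if D.ka s ∈ S then q s else p s) := by
  classical
  induction S using Finset.induction_on with
  | empty =>
    simp only [Finset.notMem_empty, if_false]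
    exact Relation.ReflTransGen.refl
  | insert k S _ ih =>
    have h := setk D (fun s => if D.ka s ∈ S then q s else p s) q k
    have e : (fun s => if D.ka s = k then q s else (if D.ka s ∈ S then q s else p s)) =
        fun s => if D.ka s ∈ insert k S then q s else p s := by
      funext s
      by_cases hk : D.ka s = k
      · rw [if_pos hk, if_pos (by rw [hk]; exact Finset.mem_insert_self _ _)]
      · rw [if_neg hk]
        by_cases hS : D.ka s ∈ S
        · rw [if_pos hS, if_pos (Finset.mem_insert_of_mem hS)]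
        · rw [if_neg hS, if_neg (by
            rw [Finset.mem_insert]
            tauto)]
    rw [e] at h
    exact ih.trans h

theorem singularTransitive_fr : SingularTransitive (fr D) := by
  intro p q
  have h := setS D p q Finset.univ
  simp only [Finset.mem_univ, if_true] at h
  exact h

end

end Pool.Agent.Y391.ST
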