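import Pool.Agent.Y391.ST.Pair

/-!
# Composition with a smooth function is a differentiable map of `C([0,1])`
-/

set_option autoImplicit false

namespace Pool.Agent.Y391.ST

open Set MeasureTheory Filter Topology
open scoped ContDiff Manifold

noncomputable section

/-- composition with a continuous function -/
def Nm (f : ℝ → ℝ) (hf : Continuous f) (φ : C(I01, ℝ)) : C(I01, ℝ) :=
  ⟨fun t => f (φ t), hf.comp φ.continuous⟩

lemma Nm_apply (f : ℝ → ℝ) (hf : Continuous f) (φ : C(I01, ℝ)) (t : I01) :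
    Nm f hf φ t = f (φ t) := rfl

lemma differentiableAt_Nm {f : ℝ → ℝ} (hf : ContDiff ℝ ∞ f) (φ : C(I01, ℝ)) :
    DifferentiableAt ℝ (Nm f hf.continuous) φ := by
  have hdiff : Differentiable ℝ f := hf.differentiable (by simp)
  have hf' : Continuous (deriv f) := hf.continuous_deriv (by simp)
  refine HasFDerivAt.differentiableAt
    (f' := ContinuousLinearMap.mul ℝ (C(I01, ℝ)) (Nm (deriv f) hf' φ)) ?_
  rw [hasFDerivAt_iff_isLittleO_nhds_zero, Asymptotics.isLittleO_iff]
  intro c hc
  set M : ℝ := ‖φ‖ + 1 with hM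
  have huc : UniformContinuousOn (deriv f) (Icc (-M) M) :=
    isCompact_Icc.uniformContinuousOn_of_continuous hf'.continuousOn
  rw [Metric.uniformContinuousOn_iff] at huc
  obtain ⟨δ, hδ, huc⟩ := huc c hc
  have hev : ∀ᶠ h : C(I01, ℝ) in 𝓝 0, ‖h‖ < min δ 1 := by
    have := Metric.ball_mem_nhds (0 : C(I01, ℝ)) (lt_min hδ one_pos)
    filter_upwards [this] with h hh
    simpa using hh
  filter_upwards [hev] with h hh
  have hhδ : ‖h‖ < δ := lt_of_lt_of_le hh (min_le_left _ _)
  have hh1 : ‖h‖ < 1 := lt_of_lt_of_le hh (min_le_right _ _)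
  rw [ContinuousMap.norm_le _ (by positivity)]
  intro t
  have hφt : |φ t| ≤ ‖φ‖ := φ.norm_coe_le_norm t
  have hht : |h t| ≤ ‖h‖ := h.norm_coe_le_norm t
  show |f (φ t + h t) - f (φ t) - deriv f (φ t) * h t| ≤ c * ‖h‖
  set a := φ t with ha
  set b := φ t + h t with hb
  have hmem : ∀ s ∈ uIcc a b, |s - a| ≤ |h t| := by
    intro s hs
    have h1 := abs_sub_left_of_mem_uIcc hs
    have h2 : b - a = h t := by rw [hb, ha]; ring
    rwa [h2] at h1
  have hK : ∀ s ∈ uIcc a b, s ∈ Icc (-M) M := by
    intro s hs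
    have h1 := hmem s hs
    have h2 : |s| ≤ |a| + |s - a| := by
      have := abs_add_le a (s - a)
      rwa [add_sub_cancel] at this
    rw [mem_Icc, ← abs_le]
    linarith
  have hmvt := Convex.norm_image_sub_le_of_norm_hasDerivWithin_le
    (f := fun s => f s - deriv f a * s) (f' := fun s => deriv f s - deriv f a)
    (C := c) (s := uIcc a b) (x := a) (y := b)
    (fun s _ => by
      have := ((hdiff s).hasDerivAt.fun_sub ((hasDerivAt_id' s).const_mul (deriv f a)))
      rw [mul_one] at this
      exact this.hasDerivWithinAt)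
    (fun s hs => by
      have h1 := huc s (hK s hs) a (hK a left_mem_uIcc) (by
        rw [Real.dist_eq]
        exact lt_of_le_of_lt (hmem s hs) (lt_of_le_of_lt hht hhδ))
      rw [Real.dist_eq] at h1
      exact h1.le)
    (convex_uIcc a b) left_mem_uIcc right_mem_uIcc
  have e1 : f b - deriv f a * b - (f a - deriv f a * a) =
      f (φ t + h t) - f (φ t) - deriv f (φ t) * h t := by
    rw [← hb, ← ha]
    have : b = a + h t := by rw [hb, ha]
    rw [this]
    ring
  rw [Real.norm_eq_abs, Real.norm_eq_abs] at hmvt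
  have e2 : b - a = h t := by rw [hb, ha]; ring
  rw [e2] at hmvt
  calc |f (φ t + h t) - f (φ t) - deriv f (φ t) * h t|
      = |f b - deriv f a * b - (f a - deriv f a * a)| := by rw [e1]
    _ ≤ c * |h t| := hmvt
    _ ≤ c * ‖h‖ := mul_le_mul_of_nonneg_left hht hc.le

end

end Pool.Agent.Y391.ST
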