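import Pool.Agent.Y391.ST.Base

/-!
# The pairing of `L²([0,1])` with continuous functions
-/

set_option autoImplicit false

namespace Pool.Agent.Y391.ST

open Set MeasureTheory Filter Topology
open scoped ContDiff Manifold

noncomputable section

/-- the unit interval -/
abbrev I01 : Type := Icc (0 : ℝ) 1

/-- the primitive as a continuous function -/
def PC : Lp ℝ 2 leb →L[ℝ] C(I01, ℝ) :=
  LinearMap.mkContinuous
    { toFun := fun f => ⟨fun t => P f t, (continuousOn_iff_continuous_domRestrict.1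
        (continuousOn_P f))⟩
      map_add' := fun f g => by
        ext t
        exact P_add f g t.2
      map_smul' := fun c f => by
        ext t
        exact P_smul c f t.2 } 1
    (fun f => by
      rw [one_mul]
      refine (ContinuousMap.norm_le _ (norm_nonneg _)).2 fun t => ?_
      exact abs_P_le f t.2)

lemma PC_apply (f : Lp ℝ 2 leb) (t : I01) : PC f t = P f t := rfl

/-- extension of a continuous function on `[0,1]` to the real line -/
def ex (φ : C(I01, ℝ)) : ℝ → ℝ := IccExtend zero_le_one φ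

lemma ex_of_mem (φ : C(I01, ℝ)) {t : ℝ} (ht : t ∈ Icc (0 : ℝ) 1) : ex φ t = φ ⟨t, ht⟩ :=
  IccExtend_of_mem zero_le_one _ ht

lemma ex_continuous (φ : C(I01, ℝ)) : Continuous (ex φ) := φ.continuous.Icc_extend'

lemma ex_le (φ : C(I01, ℝ)) (t : ℝ) : |ex φ t| ≤ ‖φ‖ := φ.norm_coe_le_norm _

lemma integrable_mul (g : Lp ℝ 2 leb) (φ : C(I01, ℝ)) :
    Integrable (fun s => g s * ex φ s) leb := by
  refine (integrable_Lp g).mul_bdd (c := ‖φ‖) (ex_continuous φ).aestronglyMeasurable ?_
  exact ae_of_all _ fun t => ex_le φ t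

/-- `∫₀¹ g φ` -/
def BC : Lp ℝ 2 leb →L[ℝ] C(I01, ℝ) →L[ℝ] ℝ :=
  LinearMap.mkContinuous₂
    (LinearMap.mk₂ ℝ (fun g φ => ∫ s, g s * ex φ s ∂leb)
      (fun g g' φ => by
        show ∫ s, (g + g' : Lp ℝ 2 leb) s * ex φ s ∂leb = _
        rw [← integral_add (integrable_mul g φ) (integrable_mul g' φ)]
        apply integral_congr_ae
        filter_upwards [Lp.coeFn_add g g'] with s hs
        rw [hs, Pi.add_apply, add_mul])
      (fun c g φ => by
        show ∫ s, (c • g : Lp ℝ 2 leb) s * ex φ s ∂leb = c • ∫ s, g s * ex φ s ∂leb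
        rw [← integral_smul]
        apply integral_congr_ae
        filter_upwards [Lp.coeFn_smul c g] with s hs
        rw [hs, Pi.smul_apply, smul_eq_mul, smul_eq_mul, mul_assoc])
      (fun g φ φ' => by
        show ∫ s, g s * ex (φ + φ') s ∂leb = _
        rw [← integral_add (integrable_mul g φ) (integrable_mul g φ')]
        apply integral_congr_ae
        exact ae_of_all _ fun s => mul_add _ _ _)
      (fun c g φ => by
        show ∫ s, g s * ex (c • φ) s ∂leb = c • ∫ s, g s * ex φ s ∂leb
        rw [← integral_smul]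
        apply integral_congr_ae
        refine ae_of_all _ fun s => ?_
        show g s * (c * ex φ s) = c * (g s * ex φ s)
        ring)) 1
    (fun g φ => by
      show |∫ s, g s * ex φ s ∂leb| ≤ 1 * ‖g‖ * ‖φ‖
      rw [one_mul]
      calc |∫ s, g s * ex φ s ∂leb| ≤ ∫ s, |g s * ex φ s| ∂leb := abs_integral_le_integral_abs
        _ ≤ ∫ s, |g s| * ‖φ‖ ∂leb := by
            apply integral_mono_of_nonneg
            · exact ae_of_all _ fun _ => abs_nonneg _
            · exact (integrable_Lp g).abs.mul_const _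
            · refine ae_of_all _ fun s => ?_
              show |g s * ex φ s| ≤ |g s| * ‖φ‖
              rw [abs_mul]
              exact mul_le_mul_of_nonneg_left (ex_le φ s) (abs_nonneg _)
        _ = (∫ s, |g s| ∂leb) * ‖φ‖ := integral_mul_const _ _
        _ ≤ ‖g‖ * ‖φ‖ := mul_le_mul_of_nonneg_right (integral_abs_le g) (norm_nonneg _))

lemma BC_apply (g : Lp ℝ 2 leb) (φ : C(I01, ℝ)) : BC g φ = ∫ s, g s * ex φ s ∂leb := rfl

/-- the pairing as an interval integral -/
lemma BC_eq (g : Lp ℝ 2 leb) (φ : C(I01, ℝ)) (ψ : ℝ → ℝ)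
    (h : ∀ t (ht : t ∈ Icc (0 : ℝ) 1), ψ t = φ ⟨t, ht⟩) :
    ∫ s in (0 : ℝ)..1, g s * ψ s = BC g φ := by
  rw [BC_apply, intervalIntegral.integral_of_le zero_le_one, ← integral_Icc_eq_integral_Ioc]
  apply integral_congr_ae
  filter_upwards [ae_restrict_mem measurableSet_Icc] with s hs
  rw [h s hs, ex_of_mem φ hs]

/-- primitives of `g ψ` are continuous -/
lemma continuousOn_prim (g : Lp ℝ 2 leb) {ψ : ℝ → ℝ} (hψ : ContinuousOn ψ (Icc 0 1)) :
    ContinuousOn (fun t => ∫ s in (0 : ℝ)..t, g s * ψ s) (Icc 0 1) := by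
  have h1 : IntervalIntegrable g volume 0 1 := intervalIntegrable_Lp g ⟨zero_le_one, le_rfl⟩
  have h2 : IntervalIntegrable (fun s => g s * ψ s) volume 0 1 :=
    h1.mul_continuousOn (by rwa [uIcc_of_le zero_le_one])
  have := intervalIntegral.continuousOn_primitive_interval (μ := volume) (a := 0) (b := 1)
    (f := fun s => g s * ψ s) (by
      rw [uIcc_of_le zero_le_one]
      rwa [intervalIntegrable_iff_integrableOn_Icc_of_le zero_le_one] at h2)
  rwa [uIcc_of_le zero_le_one] at this

lemma J_cst (c : ℝ) : J (cst c) = c := by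
  rw [J_apply, P_cst c ⟨zero_le_one, le_rfl⟩, mul_one]

lemma BC_one (g : Lp ℝ 2 leb) (a : ℝ) : BC g (ContinuousMap.const _ a) = a * J g := by
  rw [← BC_eq g (ContinuousMap.const _ a) (fun _ => a) (fun _ _ => rfl),
    intervalIntegral.integral_mul_const, J_apply, P, mul_comm]

end

end Pool.Agent.Y391.ST
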