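import Pool.Agent.Y391.ST.Mono

/-!
# Infinite-dimensional symmetry groups of monomial frames with a contact block
-/

set_option autoImplicit false

namespace Pool.Agent.Y391.ST

open Set MeasureTheory Filter Topology
open scoped ContDiff Manifold

noncomputable section

variable {r n : ℕ} (D : Datum r n)

/-- A contact block: the coordinates `x = c0`, `y = c1`, `z = c2` with `dz = x dy`, not used by
the other coordinates. -/
structure Block (c0 c1 c2 : Fin n) : Prop where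
  h01 : c0 ≠ c1
  h02 : c0 ≠ c2
  h12 : c1 ≠ c2
  m0 : D.m c0 = 0
  m1 : D.m c1 = 0
  m2 : D.m c2 = 1
  b2 : D.b c2 = c0
  k12 : D.ka c1 = D.ka c2
  k0 : ∀ s, D.ka s = D.ka c0 → s = c0
  k1 : ∀ s, D.ka s = D.ka c1 → s = c1 ∨ s = c2
  hb : ∀ s, D.m s ≠ 0 → s ≠ c2 → D.b s ≠ c0 ∧ D.b s ≠ c1 ∧ D.b s ≠ c2

variable {D} {c0 c1 c2 : Fin n} (hB : Block D c0 c1 c2)

lemma mem_dist (q v : Fin n → ℝ) :
    v ∈ distribution (fr D) q ↔ ∃ c : Fin r → ℝ, ∀ s, v s = c (D.ka s) * q (D.b s) ^ D.m s := by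
  unfold distribution
  rw [Submodule.mem_span_range_iff_exists_fun]
  constructor
  · rintro ⟨c, rfl⟩
    refine ⟨c, fun s => ?_⟩
    rw [← sum_fr D c q s, Finset.sum_apply]
    rfl
  · rintro ⟨c, hc⟩
    refine ⟨c, ?_⟩
    ext s
    rw [hc s, ← sum_fr D c q s, Finset.sum_apply]
    rfl

variable (c0 c1 c2) in
/-- the shear `x ↦ x + t m y ^ (m - 1)`, `z ↦ z + t y ^ m` -/
def sh (m : ℕ) (t : ℝ) (q : Fin n → ℝ) : Fin n → ℝ := fun s =>
  q s + ((if s = c0 then t * (m * q c1 ^ (m - 1)) else 0) + (if s = c2 then t * q c1 ^ m else 0))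

include hB

lemma sh_c1 (m : ℕ) (t : ℝ) (q : Fin n → ℝ) : sh c0 c1 c2 m t q c1 = q c1 := by
  unfold sh
  rw [if_neg hB.h01.symm, if_neg hB.h12]
  ring

lemma sh_c0 (m : ℕ) (t : ℝ) (q : Fin n → ℝ) :
    sh c0 c1 c2 m t q c0 = q c0 + t * (m * q c1 ^ (m - 1)) := by
  unfold sh
  rw [if_pos rfl, if_neg hB.h02]
  ring

lemma sh_c2 (m : ℕ) (t : ℝ) (q : Fin n → ℝ) :
    sh c0 c1 c2 m t q c2 = q c2 + t * q c1 ^ m := by
  unfold sh
  rw [if_pos rfl, if_neg hB.h02.symm]
  ring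

omit hB in
lemma sh_other (m : ℕ) (t : ℝ) (q : Fin n → ℝ) {s : Fin n} (h0 : s ≠ c0) (h2 : s ≠ c2) :
    sh c0 c1 c2 m t q s = q s := by
  unfold sh
  rw [if_neg h0, if_neg h2]
  ring

lemma sh_sh (m : ℕ) (s t : ℝ) (q : Fin n → ℝ) :
    sh c0 c1 c2 m s (sh c0 c1 c2 m t q) = sh c0 c1 c2 m (s + t) q := by
  ext l
  by_cases h0 : l = c0
  · subst h0
    rw [sh_c0 hB, sh_c0 hB, sh_c0 hB, sh_c1 hB]
    ring
  · by_cases h2 : l = c2
    · subst h2
      rw [sh_c2 hB, sh_c2 hB, sh_c2 hB, sh_c1 hB]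
      ring
    · rw [sh_other m s _ h0 h2, sh_other m t _ h0 h2, sh_other m (s + t) _ h0 h2]

omit hB in
lemma sh_zero (m : ℕ) (q : Fin n → ℝ) : sh c0 c1 c2 m 0 q = q := by
  ext l
  simp [sh]

/-- the shear as a permutation -/
def shp (m : ℕ) (t : ℝ) : Equiv.Perm (Fin n → ℝ) where
  toFun := sh c0 c1 c2 m t
  invFun := sh c0 c1 c2 m (-t)
  left_inv q := by rw [sh_sh hB, neg_add_cancel, sh_zero]
  right_inv q := by rw [sh_sh hB, add_neg_cancel, sh_zero]

omit hB in
lemma contDiff_sh (m : ℕ) :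
    ContDiff ℝ ∞ (fun p : ℝ × (Fin n → ℝ) => sh c0 c1 c2 m p.1 p.2) := by
  rw [contDiff_pi]
  intro l
  unfold sh
  have hc : ∀ s : Fin n, ContDiff ℝ ∞ (fun p : ℝ × (Fin n → ℝ) => p.2 s) := fun s =>
    (contDiff_apply ℝ ℝ s).comp contDiff_snd
  refine (hc l).add (ContDiff.add ?_ ?_)
  · split_ifs
    · exact contDiff_fst.mul (contDiff_const.mul ((hc c1).pow _))
    · exact contDiff_const
  · split_ifs
    · exact contDiff_fst.mul ((hc c1).pow _)
    · exact contDiff_const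

omit hB in
lemma contDiff_sh' (m : ℕ) (t : ℝ) : ContDiff ℝ ∞ (sh (n := n) c0 c1 c2 m t) :=
  (contDiff_sh m).comp (contDiff_const.prodMk contDiff_id)

omit hB in
/-- the differential of the shear -/
lemma fderiv_sh (m : ℕ) (t : ℝ) (q v : Fin n → ℝ) (l : Fin n) :
    fderiv ℝ (sh c0 c1 c2 m t) q v l =
      v l + ((if l = c0 then t * (m * ((m - 1 : ℕ) * q c1 ^ (m - 1 - 1) * v c1)) else 0) +
        (if l = c2 then t * (m * q c1 ^ (m - 1) * v c1) else 0)) := by
  have hd : DifferentiableAt ℝ (sh c0 c1 c2 m t) q :=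
    (contDiff_sh' m t).differentiable (by simp) q
  have h1 : HasDerivAt (fun s : ℝ => sh c0 c1 c2 m t (q + s • v))
      (fderiv ℝ (sh c0 c1 c2 m t) q v) 0 := by
    have hl : HasDerivAt (fun s : ℝ => q + s • v) v 0 := by
      simpa using ((hasDerivAt_id (0:ℝ)).smul_const v).const_add q
    have hd' : HasFDerivAt (sh c0 c1 c2 m t) (fderiv ℝ (sh c0 c1 c2 m t) q) (q + (0:ℝ) • v) := by
      simpa using hd.hasFDerivAt
    exact hd'.comp_hasDerivAt 0 hl
  have hl : ∀ j, HasDerivAt (fun s : ℝ => q j + s * v j) (v j) 0 := by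
    intro j
    simpa using ((hasDerivAt_id (0:ℝ)).mul_const (v j)).const_add (q j)
  have h2 : HasDerivAt (fun s : ℝ => sh c0 c1 c2 m t (q + s • v) l)
      (v l + ((if l = c0 then t * (m * ((m - 1 : ℕ) * q c1 ^ (m - 1 - 1) * v c1)) else 0) +
        (if l = c2 then t * (m * q c1 ^ (m - 1) * v c1) else 0))) 0 := by
    have a0 : HasDerivAt (fun s : ℝ => if l = c0 then t * (m * (q c1 + s * v c1) ^ (m - 1)) else 0)
        (if l = c0 then t * (m * ((m - 1 : ℕ) * q c1 ^ (m - 1 - 1) * v c1)) else 0) 0 := by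
      split_ifs
      · have := (((hl c1).pow (m - 1)).const_mul (m : ℝ)).const_mul t
        simpa using this
      · exact hasDerivAt_const _ _
    have a2 : HasDerivAt (fun s : ℝ => if l = c2 then t * (q c1 + s * v c1) ^ m else 0)
        (if l = c2 then t * (m * q c1 ^ (m - 1) * v c1) else 0) 0 := by
      split_ifs
      · have := ((hl c1).pow m).const_mul t
        simpa using this
      · exact hasDerivAt_const _ _
    exact (hl l).add (a0.add a2)
  exact (hasDerivAt_pi.1 h1 l).unique h2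

lemma dist_iff (q v : Fin n → ℝ) : v ∈ distribution (fr D) q ↔
    v c2 = v c1 * q c0 ∧ ∃ c : Fin r → ℝ, ∀ s, s ≠ c0 → s ≠ c1 → s ≠ c2 →
      v s = c (D.ka s) * q (D.b s) ^ D.m s := by
  rw [mem_dist]
  constructor
  · rintro ⟨c, hc⟩
    refine ⟨?_, c, fun s _ _ _ => hc s⟩
    rw [hc c2, hc c1, hB.m1, hB.m2, hB.b2, hB.k12, pow_zero, pow_one, mul_one]
  · rintro ⟨h1, c, hc⟩
    classical
    refine ⟨fun k => if k = D.ka c0 then v c0 else if k = D.ka c1 then v c1 else c k,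
      fun s => ?_⟩
    have hk01 : D.ka c1 ≠ D.ka c0 := fun h => hB.h01 (hB.k0 c1 h).symm
    show v s = (if D.ka s = D.ka c0 then v c0 else if D.ka s = D.ka c1 then v c1 else
      c (D.ka s)) * q (D.b s) ^ D.m s
    by_cases h0 : s = c0
    · subst h0
      rw [if_pos rfl, hB.m0, pow_zero, mul_one]
    · by_cases h1' : s = c1
      · subst h1'
        rw [if_neg hk01, if_pos rfl, hB.m1, pow_zero, mul_one]
      · by_cases h2 : s = c2
        · subst h2
          rw [← hB.k12, if_neg hk01, if_pos rfl, hB.m2, hB.b2, pow_one, h1]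
        · have hk0 : D.ka s ≠ D.ka c0 := fun h => h0 (hB.k0 s h)
          have hk1 : D.ka s ≠ D.ka c1 := fun h => (hB.k1 s h).elim h1' h2
          rw [if_neg hk0, if_neg hk1]
          exact hc s h0 h1' h2

lemma shp_mem (m : ℕ) (t : ℝ) : shp hB m t ∈ symmetryGroup (distribution (fr D)) := by
  have hfac : ∀ (q : Fin n → ℝ) (t : ℝ) (s : Fin n), s ≠ c0 → s ≠ c1 → s ≠ c2 →
      sh c0 c1 c2 m t q (D.b s) ^ D.m s = q (D.b s) ^ D.m s := by
    intro q t s _ _ h2
    by_cases hm : D.m s = 0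
    · rw [hm, pow_zero, pow_zero]
    · obtain ⟨b0, -, b2⟩ := hB.hb s hm h2
      rw [sh_other m t q b0 b2]
  refine ⟨contDiff_sh' m t, contDiff_sh' m (-t), fun q => ?_⟩
  show (distribution (fr D) q).map
    (fderiv ℝ (sh c0 c1 c2 m t) q : (Fin n → ℝ) →ₗ[ℝ] (Fin n → ℝ)) =
      distribution (fr D) (sh c0 c1 c2 m t q)
  ext w
  rw [Submodule.mem_map, dist_iff hB]
  constructor
  · rintro ⟨v, hv, rfl⟩
    rw [dist_iff hB] at hv
    obtain ⟨h1, c, hc⟩ := hv
    rw [ContinuousLinearMap.coe_coe]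
    refine ⟨?_, c, fun s h0 h1 h2 => ?_⟩
    · rw [fderiv_sh, fderiv_sh, sh_c0 hB, if_neg hB.h02.symm, if_pos rfl, if_neg hB.h01.symm,
        if_neg hB.h12, h1]
      ring
    · rw [fderiv_sh, if_neg h0, if_neg h2, hfac q t s h0 h1 h2, ← hc s h0 h1 h2]
      ring
  · rintro ⟨h1, c, hc⟩
    rw [sh_c0 hB] at h1
    refine ⟨fun l => w l - ((if l = c0 then t * (m * ((m - 1 : ℕ) * q c1 ^ (m - 1 - 1) * w c1))
      else 0) + (if l = c2 then t * (m * q c1 ^ (m - 1) * w c1) else 0)), ?_, ?_⟩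
    · rw [dist_iff hB]
      refine ⟨?_, c, fun s h0 h1 h2 => ?_⟩
      · show w c2 - ((if c2 = c0 then t * (m * ((m - 1 : ℕ) * q c1 ^ (m - 1 - 1) * w c1))
          else 0) + (if c2 = c2 then t * (m * q c1 ^ (m - 1) * w c1) else 0)) =
          (w c1 - ((if c1 = c0 then t * (m * ((m - 1 : ℕ) * q c1 ^ (m - 1 - 1) * w c1))
          else 0) + (if c1 = c2 then t * (m * q c1 ^ (m - 1) * w c1) else 0))) * q c0
        rw [if_neg hB.h02.symm, if_pos rfl, if_neg hB.h01.symm, if_neg hB.h12, h1]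
        ring
      · simp only [if_neg h0, if_neg h2]
        rw [hc s h0 h1 h2, hfac q t s h0 h1 h2]
        ring
    · rw [ContinuousLinearMap.coe_coe]
      ext l
      rw [fderiv_sh]
      simp only [if_neg hB.h01.symm, if_neg hB.h12]
      ring_nf

/-- the one-parameter group of shears -/
def oneParam (m : ℕ) (t : ℝ) : symmetryGroup (distribution (fr D)) :=
  ⟨shp hB m t, shp_mem hB m t⟩

lemma oneParam_add (m : ℕ) (s t : ℝ) :
    oneParam hB m (s + t) = oneParam hB m s * oneParam hB m t := by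
  apply Subtype.ext
  apply Equiv.ext
  intro q
  exact (sh_sh hB m s t q).symm

theorem not_isFiniteDimLieGroup :
    ¬ IsFiniteDimLieGroup (symmetryGroup (distribution (fr D))) := by
  rintro ⟨W, _, _, _, L, _, _, _, _, φ, hact, hone⟩
  set d := Module.finrank ℝ W with hd
  have hc : ∀ m, ContMDiff 𝓘(ℝ, ℝ) 𝓘(ℝ, W) ∞ (fun t => φ.symm (oneParam hB m t)) :=
    fun m => hone (oneParam hB m) (oneParam_add hB m) (contDiff_sh m)
  -- velocities at the identity of `L`
  let w : Fin (d + 1) → W := fun m =>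
    mfderiv 𝓘(ℝ, ℝ) 𝓘(ℝ, W) (fun t => φ.symm (oneParam hB m t)) 0 (1 : ℝ)
  have hw : ¬ LinearIndependent ℝ w := by
    intro hli
    have := hli.fintype_card_le_finrank
    simp [← hd] at this
  obtain ⟨a, ha, i0, hi0⟩ := Fintype.not_linearIndependent_iff.1 hw
  -- evaluate on points
  have key : ∀ (q : Fin n → ℝ), ∑ m : Fin (d + 1), a m * q c1 ^ (m : ℕ) = 0 := by
    intro q
    have hq : ContMDiff 𝓘(ℝ, W) 𝓘(ℝ, Fin n → ℝ) ∞
        (fun g : L => (φ g : Equiv.Perm (Fin n → ℝ)) q) :=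
      hact.comp (contMDiff_id.prodMk contMDiff_const)
    have e0 : ∀ m, φ.symm (oneParam hB m 0) = 1 := by
      intro m
      have : oneParam hB m 0 = 1 := by
        have h := oneParam_add hB m 0 0
        rw [add_zero] at h
        exact left_eq_mul.1 h
      rw [this, map_one]
    let A : W →L[ℝ] (Fin n → ℝ) :=
      mfderiv 𝓘(ℝ, W) 𝓘(ℝ, Fin n → ℝ) (fun g : L => (φ g : Equiv.Perm (Fin n → ℝ)) q) 1
    have hD : ∀ m : Fin (d + 1), A (w m) c2 = q c1 ^ (m : ℕ) := by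
      intro m
      have h1 : HasMFDerivAt 𝓘(ℝ, ℝ) 𝓘(ℝ, W) (fun t => φ.symm (oneParam hB m t)) 0
          (mfderiv 𝓘(ℝ, ℝ) 𝓘(ℝ, W) (fun t => φ.symm (oneParam hB m t)) 0) :=
        ((hc m).mdifferentiable (by simp) 0).hasMFDerivAt
      have h2 : HasMFDerivAt 𝓘(ℝ, W) 𝓘(ℝ, Fin n → ℝ)
          (fun g : L => (φ g : Equiv.Perm (Fin n → ℝ)) q) (φ.symm (oneParam hB m 0)) A := by
        rw [e0 m]
        exact (hq.mdifferentiable (by simp) 1).hasMFDerivAt
      have h3 := h2.comp (0 : ℝ) h1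
      have h4 : ((fun g : L => (φ g : Equiv.Perm (Fin n → ℝ)) q) ∘
          fun t => φ.symm (oneParam hB m t)) = fun t => sh c0 c1 c2 m t q := by
        ext1 t
        simp only [Function.comp_apply, MulEquiv.apply_symm_apply]
        rfl
      rw [h4] at h3
      let W' : ℝ →L[ℝ] W :=
        mfderiv 𝓘(ℝ, ℝ) 𝓘(ℝ, W) (fun t => φ.symm (oneParam hB m t)) 0
      have h5' : HasFDerivAt (fun t => sh c0 c1 c2 m t q) (A.comp W') 0 := h3.hasFDerivAt
      have h5 : HasDerivAt (fun t => sh c0 c1 c2 m t q) (A (w m)) 0 := h5'.hasDerivAt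
      have h6 := hasDerivAt_pi.1 h5 c2
      have h7 : HasDerivAt (fun t : ℝ => sh c0 c1 c2 m t q c2) (q c1 ^ (m : ℕ)) 0 := by
        simp only [sh_c2 hB]
        simpa using ((hasDerivAt_id (0 : ℝ)).mul_const (q c1 ^ (m : ℕ))).const_add (q c2)
      exact h6.unique h7
    have h6 := congrArg (fun x : W => A x c2) ha
    simp only [map_sum, map_smul, map_zero, Finset.sum_apply, Pi.smul_apply, hD,
      smul_eq_mul, Pi.zero_apply] at h6
    exact h6
  -- a nonzero polynomial vanishing identically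
  let p : Polynomial ℝ := ∑ m : Fin (d + 1), Polynomial.C (a m) * Polynomial.X ^ (m : ℕ)
  have hp : p = 0 := by
    apply Polynomial.funext
    intro x
    have := key (fun _ => x)
    simp only [p, Polynomial.eval_finsetSum, Polynomial.eval_mul, Polynomial.eval_C,
      Polynomial.eval_pow, Polynomial.eval_X, Polynomial.eval_zero]
    exact this
  apply hi0
  have h8 : p.coeff (i0 : ℕ) = a i0 := by
    simp only [p, Polynomial.finsetSum_coeff, Polynomial.coeff_C_mul_X_pow]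
    rw [Finset.sum_eq_single i0]
    · simp
    · intro b _ hb
      rw [if_neg]
      intro h
      exact hb (Fin.ext h.symm)
    · simp
  rw [← h8, hp, Polynomial.coeff_zero]

end

end Pool.Agent.Y391.ST
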